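import Pool.Agent.Helper73.Dil.Surf

open Topology Set Filter MeasureTheory Metric

namespace Pool.Agent.Helper73.Dil

universe u

open DilationSurface

section
variable {X : Type u} [TopologicalSpace X]

theorem dilAt_symm {f f' : X → ℂ} {x : X} {r : ℝ} (h : DilAt f f' x r) : DilAt f' f x r⁻¹ := by
  obtain ⟨a, b, ha, har, h⟩ := h
  refine ⟨a⁻¹, -(a⁻¹ : ℝ) * b, inv_ne_zero ha, by rw [abs_inv, har], h.mono fun y hy => ?_⟩
  have ha' : (a : ℂ) ≠ 0 := by exact_mod_cast ha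
  rw [hy]
  push_cast
  field_simp
  ring

theorem dilAt_trans {f f' f'' : X → ℂ} {x : X} {r s : ℝ} (h : DilAt f f' x r)
    (h' : DilAt f' f'' x s) : DilAt f f'' x (r * s) := by
  obtain ⟨a, b, ha, har, h⟩ := h
  obtain ⟨a', b', ha', har', h'⟩ := h'
  refine ⟨a' * a, a' * b + b', mul_ne_zero ha' ha, by rw [abs_mul, har, har', mul_comm], ?_⟩
  filter_upwards [h, h'] with y hy hy'
  rw [hy', hy]
  push_cast
  ring

theorem dilAt_refl (f : X → ℂ) (x : X) : DilAt f f x 1 :=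
  ⟨1, 0, one_ne_zero, abs_one, Eventually.of_forall fun y => by simp⟩

variable {D : DilationSurface X}

theorem isChart_dil {e e' : OpenPartialHomeomorph X ℂ} (he : D.IsChart e) (he' : D.IsChart e')
    {x : X} (hx : x ∈ e.source) (hx' : x ∈ e'.source) : ∃ r, DilAt e e' x r := by
  obtain ⟨e0, he0, hxe0⟩ := D.cover x (he.1 x hx)
  obtain ⟨r, hr⟩ := he.2 e0 he0 x hx hxe0
  obtain ⟨s, hs⟩ := he'.2 e0 he0 x hx' hxe0
  exact ⟨_, dilAt_trans (dilAt_symm hr) hs⟩

theorem isChart_of_atlas {e : OpenPartialHomeomorph X ℂ} (he : e ∈ D.atlas) : D.IsChart e :=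
  ⟨D.source_regular e he, fun e' he' x hx hx' => D.compat e' he' e he x hx' hx⟩

theorem exists_chart {x : X} (hx : x ∉ D.cone) : ∃ e, D.IsChart e ∧ x ∈ e.source := by
  obtain ⟨e, he, hxe⟩ := D.cover x hx
  exact ⟨e, isChart_of_atlas he, hxe⟩

/-- near a point of its source a chart takes a value different from the one at the point -/
theorem chart_frequently_ne (e : OpenPartialHomeomorph X ℂ) {x : X} (hx : x ∈ e.source)
    {p : X → Prop} (hp : ∀ᶠ y in 𝓝 x, p y) : ∃ y, p y ∧ e y ≠ e x := by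
  have h1 : ∀ᶠ z in 𝓝 (e x), p (e.symm z) := by
    have := e.symm.continuousAt (x := e x) (by simpa using e.map_source hx)
    have h2 : Tendsto e.symm (𝓝 (e x)) (𝓝 x) := by
      have h3 := this.tendsto
      rwa [e.left_inv hx] at h3
    exact h2.eventually hp
  have h2 : ∀ᶠ z in 𝓝 (e x), z ∈ e.target := e.open_target.mem_nhds (e.map_source hx)
  have h3 : ∀ᶠ z in 𝓝[≠] (e x), p (e.symm z) ∧ z ∈ e.target ∧ z ≠ e x := by
    filter_upwards [h1.filter_mono nhdsWithin_le_nhds, h2.filter_mono nhdsWithin_le_nhds,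
      self_mem_nhdsWithin] with z h1 h2 h3
    exact ⟨h1, h2, h3⟩
  obtain ⟨z, hz1, hz2, hz3⟩ := h3.exists
  refine ⟨e.symm z, hz1, ?_⟩
  rwa [e.right_inv hz2]

theorem dil_unique (e : OpenPartialHomeomorph X ℂ) {f : X → ℂ} {x : X} (hx : x ∈ e.source)
    {a a' : ℝ} {b b' : ℂ} (h : ∀ᶠ y in 𝓝 x, f y = a * e y + b)
    (h' : ∀ᶠ y in 𝓝 x, f y = a' * e y + b') : a = a' ∧ b = b' := by
  obtain ⟨y, ⟨hy1, hy2⟩, hy3⟩ := chart_frequently_ne e hx (h.and h')
  have hx1 := h.self_of_nhds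
  have hx2 := h'.self_of_nhds
  have hne : e y - e x ≠ 0 := sub_ne_zero.2 hy3
  have h1 : (a : ℂ) * (e y - e x) = a' * (e y - e x) := by
    have : f y - f x = a * (e y - e x) := by rw [hy1, hx1]; ring
    have h2 : f y - f x = a' * (e y - e x) := by rw [hy2, hx2]; ring
    rw [← this, h2]
  have h2 : (a : ℂ) = a' := mul_right_cancel₀ hne h1
  have h3 : a = a' := by exact_mod_cast h2
  refine ⟨h3, ?_⟩
  rw [hx1, h3] at hx2
  simpa using hx2

theorem rat_spec {e e' : X → ℂ} {x : X} {r : ℝ} (h : DilAt e e' x r) :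
    rat e e' x ≠ 0 ∧ ∃ β : ℂ, ∀ᶠ y in 𝓝 x, e' y = rat e e' x * e y + β := by
  obtain ⟨a, b, ha, har, h⟩ := h
  have hex : ∃ (a : ℝ) (b : ℂ), a ≠ 0 ∧ ∀ᶠ y in 𝓝 x, e' y = a * e y + b := ⟨a, b, ha, h⟩
  have : rat e e' x = hex.choose := by rw [rat, dif_pos hex]
  obtain ⟨β, h1, h2⟩ := hex.choose_spec
  rw [this]
  exact ⟨h1, β, h2⟩

theorem rat_unique (e : OpenPartialHomeomorph X ℂ) {f : X → ℂ} {x : X} (hx : x ∈ e.source)
    {r : ℝ} (h : DilAt e f x r) {a : ℝ} {β : ℂ} (h' : ∀ᶠ y in 𝓝 x, f y = a * e y + β) :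
    a = rat e f x := by
  obtain ⟨-, β', h2⟩ := rat_spec h
  exact (dil_unique e hx h' h2).1

theorem rat_eventually {e e' : OpenPartialHomeomorph X ℂ} (he : D.IsChart e) (he' : D.IsChart e')
    {x : X} (hx : x ∈ e.source) (hx' : x ∈ e'.source) :
    ∀ᶠ y in 𝓝 x, rat e e' y = rat e e' x := by
  obtain ⟨r, hr⟩ := isChart_dil he he' hx hx'
  obtain ⟨h1, β, h2⟩ := rat_spec hr
  filter_upwards [h2.eventually_nhds, e.open_source.mem_nhds hx, e'.open_source.mem_nhds hx']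
    with y hy hye hye'
  obtain ⟨s, hs⟩ := isChart_dil he he' hye hye'
  exact (rat_unique e hye hs hy).symm

end

theorem sb_RAT : SB_RAT.{u} := by
  intro X _ D e e' x he he' hx hx'
  obtain ⟨r, hr⟩ := isChart_dil he he' hx hx'
  obtain ⟨h1, β, h2⟩ := rat_spec hr
  exact ⟨h1, ⟨β, h2⟩, fun a β' h' => rat_unique e hx hr h', rat_eventually he he' hx hx',
    ⟨_, β, h1, rfl, h2⟩⟩

/-! ### rescaling charts -/

/-- the affine homeomorphism `z ↦ s z + w` of the plane, `s` real nonzero -/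
noncomputable def affHomeo (s : ℝ) (hs : s ≠ 0) (w : ℂ) : ℂ ≃ₜ ℂ where
  toFun z := s * z + w
  invFun z := (s : ℂ)⁻¹ * (z - w)
  left_inv z := by
    have : (s : ℂ) ≠ 0 := by exact_mod_cast hs
    field_simp
    ring
  right_inv z := by
    have : (s : ℂ) ≠ 0 := by exact_mod_cast hs
    field_simp
    ring
  continuous_toFun := by fun_prop
  continuous_invFun := by fun_prop

theorem affHomeo_apply (s : ℝ) (hs : s ≠ 0) (w z : ℂ) : affHomeo s hs w z = s * z + w := rfl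

theorem affHomeo_symm_apply (s : ℝ) (hs : s ≠ 0) (w z : ℂ) :
    (affHomeo s hs w).symm z = (s : ℂ)⁻¹ * (z - w) := rfl

section
variable {X : Type u} [TopologicalSpace X]

/-- restrict a chart to the preimage of the ball `ball w r` and rescale to the unit ball -/
noncomputable def rescale (e : OpenPartialHomeomorph X ℂ) (w : ℂ) (r : ℝ) (hr : 0 < r) :
    OpenPartialHomeomorph X ℂ :=
  (e.restrOpen (e.source ∩ e ⁻¹' ball w r) (e.isOpen_inter_preimage isOpen_ball)).transHomeomorph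
    (affHomeo r⁻¹ (inv_ne_zero hr.ne') (-(r⁻¹ : ℝ) * w))

theorem rescale_source (e : OpenPartialHomeomorph X ℂ) (w : ℂ) (r : ℝ) (hr : 0 < r) :
    (rescale e w r hr).source = e.source ∩ e ⁻¹' ball w r := by
  simp [rescale]

theorem rescale_apply (e : OpenPartialHomeomorph X ℂ) (w : ℂ) (r : ℝ) (hr : 0 < r) (x : X) :
    rescale e w r hr x = (r⁻¹ : ℝ) * e x + (-(r⁻¹ : ℝ) * w) := by
  simp [rescale, affHomeo_apply]

theorem rescale_target (e : OpenPartialHomeomorph X ℂ) (w : ℂ) (r : ℝ) (hr : 0 < r)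
    (hb : ball w r ⊆ e.target) : (rescale e w r hr).target = B1 := by
  have hrc : (r : ℂ) ≠ 0 := by exact_mod_cast hr.ne'
  have himg : (rescale e w r hr).target = rescale e w r hr '' (rescale e w r hr).source :=
    (rescale e w r hr).image_source_eq_target.symm
  rw [himg, rescale_source]
  ext z
  constructor
  · rintro ⟨x, ⟨hx1, hx2⟩, rfl⟩
    rw [rescale_apply, B1, mem_ball_zero_iff]
    have h1 : ((r⁻¹ : ℝ) : ℂ) * e x + (-(r⁻¹ : ℝ) * w) = ((r⁻¹ : ℝ) : ℂ) * (e x - w) := by ring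
    rw [h1, norm_mul, Complex.norm_real, Real.norm_eq_abs, abs_of_pos (inv_pos.2 hr)]
    have h2 : ‖e x - w‖ < r := by
      have := hx2
      simpa [dist_eq_norm] using this
    rw [inv_mul_lt_iff₀ hr]
    linarith
  · intro hz
    rw [B1, mem_ball_zero_iff] at hz
    have hz' : (r : ℂ) * z + w ∈ ball w r := by
      rw [mem_ball, dist_eq_norm, add_sub_cancel_right, norm_mul, Complex.norm_real,
        Real.norm_eq_abs, abs_of_pos hr]
      nlinarith
    refine ⟨e.symm (r * z + w), ⟨e.map_target (hb hz'), ?_⟩, ?_⟩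
    · simp only [mem_preimage, e.right_inv (hb hz')]; exact hz'
    · rw [rescale_apply, e.right_inv (hb hz')]
      push_cast
      field_simp
      ring

theorem dilAt_rescale (e : OpenPartialHomeomorph X ℂ) (w : ℂ) (r : ℝ) (hr : 0 < r) (x : X) :
    DilAt e (rescale e w r hr) x r⁻¹ :=
  ⟨r⁻¹, -(r⁻¹ : ℝ) * w, inv_ne_zero hr.ne', abs_of_pos (inv_pos.2 hr),
    Eventually.of_forall fun y => rescale_apply e w r hr y⟩

theorem isChart_rescale {D : DilationSurface X} {e : OpenPartialHomeomorph X ℂ} (he : D.IsChart e)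
    (w : ℂ) (r : ℝ) (hr : 0 < r) : D.IsChart (rescale e w r hr) := by
  refine ⟨fun x hx => ?_, fun e' he' x hx hx' => ?_⟩
  · rw [rescale_source] at hx; exact he.1 x hx.1
  · rw [rescale_source] at hx
    obtain ⟨s, hs⟩ := he.2 e' he' x hx.1 hx'
    exact ⟨_, dilAt_trans hs (dilAt_rescale e w r hr x)⟩

/-- small ball in the target whose preimage is in a given neighbourhood -/
theorem exists_small_ball (e : OpenPartialHomeomorph X ℂ) {x : X} (hx : x ∈ e.source)
    {N : Set X} (hN : N ∈ 𝓝 x) : ∃ r, 0 < r ∧ ball (e x) r ⊆ e.target ∧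
      e.source ∩ e ⁻¹' ball (e x) r ⊆ N := by
  have h1 : e.symm ⁻¹' N ∈ 𝓝 (e x) := by
    have := e.symm.continuousAt (x := e x) (by simpa using e.map_source hx)
    apply this
    rw [e.left_inv hx]; exact hN
  have h2 : e.target ∈ 𝓝 (e x) := e.open_target.mem_nhds (e.map_source hx)
  obtain ⟨r, hr, hb⟩ := Metric.mem_nhds_iff.1 (inter_mem h1 h2)
  refine ⟨r, hr, fun z hz => (hb hz).2, fun y hy => ?_⟩
  have := (hb hy.2).1
  rwa [mem_preimage, e.left_inv hy.1] at this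

end

theorem sb_BALL : SB_BALL.{u} := by
  intro X _ D x hx N hN
  obtain ⟨e, he, hxe⟩ := exists_chart hx
  obtain ⟨r, hr, hb, hs⟩ := exists_small_ball e hxe hN
  refine ⟨rescale e (e x) r hr, ⟨isChart_rescale he _ r hr, rescale_target e _ r hr hb⟩, ?_, ?_, ?_⟩
  · rw [rescale_source]; exact ⟨hxe, mem_ball_self hr⟩
  · rw [rescale_apply]; ring
  · rw [rescale_source]; exact hs

theorem sb_CB : SB_CB.{u} := by
  intro X _ D p hp N hN
  obtain ⟨k, ψ, hk, hs, h0, hm⟩ := D.cone_model p hp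
  obtain ⟨r, hr, hb, hsub⟩ := exists_small_ball ψ hs hN
  rw [h0] at hb hsub
  refine ⟨k, rescale ψ 0 r hr, ⟨hp, hk, ?_, ?_, rescale_target ψ _ r hr hb, ?_⟩, ?_⟩
  · rw [rescale_source]; exact ⟨hs, by simp [h0, hr]⟩
  · rw [rescale_apply, h0]; ring
  · intro x hx hxp
    rw [rescale_source] at hx
    refine ⟨(hm x hx.1 hxp).1, fun e he hxe => ?_⟩
    obtain ⟨e0, he0, hxe0⟩ := D.cover x (hm x hx.1 hxp).1
    obtain ⟨a, b, ha, h⟩ := (hm x hx.1 hxp).2 e0 he0 hxe0
    obtain ⟨s, a', b', ha', -, h'⟩ := he.2 e0 he0 x hxe hxe0 |>.imp fun r hr => dilAt_symm hr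
    refine ⟨Real.sqrt (r⁻¹ ^ k) * (a * a'), Real.sqrt (r⁻¹ ^ k) * (a * b' + b), ?_, ?_⟩
    · refine mul_ne_zero (Real.sqrt_ne_zero'.2 (by positivity)) (mul_ne_zero ha ha')
    · filter_upwards [h, h'] with y hy hy'
      rw [rescale_apply]
      have h1 : ((Real.sqrt (r⁻¹ ^ k) : ℝ) : ℂ) ^ 2 = ((r⁻¹ : ℝ) : ℂ) ^ k := by
        rw [← Complex.ofReal_pow, Real.sq_sqrt (by positivity), Complex.ofReal_pow]
      have h2 : ((Real.sqrt (r⁻¹ ^ k) * (a * a') : ℝ) : ℂ) * e y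
          + Real.sqrt (r⁻¹ ^ k) * (a * b' + b)
          = (Real.sqrt (r⁻¹ ^ k) : ℂ) * (a * e0 y + b) := by
        rw [hy']; push_cast; ring
      rw [h2, mul_pow, h1, hy]
      ring
  · rw [rescale_source]; exact hsub

end Pool.Agent.Helper73.Dil
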