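import Pool.Agent.Helper73.Dil.PU

open Topology Set Filter MeasureTheory Metric
open scoped ENNReal

namespace Pool.Agent.Helper73.Dil

universe u

open DilationSurface

section
variable {X : Type u} [TopologicalSpace X] {D : DilationSurface X}

theorem measurableSet_B1 : MeasurableSet B1 := measurableSet_ball
theorem measurableSet_Bh : MeasurableSet Bh := measurableSet_ball
theorem isOpen_B1 : IsOpen B1 := isOpen_ball
theorem isOpen_Bh : IsOpen Bh := isOpen_ball

/-- a test function as a twisted function -/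
def testTwist {ψ : X → ℂ} (hψ : D.IsTest ψ) : D.Twist where
  F := fun _ => ψ
  trans := fun _ _ _ _ x _ _ => Eventually.of_forall fun y => by simp
  smooth := hψ.1

theorem dilAt_eventually {f f' : X → ℂ} {x : X} {r : ℝ} (h : DilAt f f' x r) :
    ∀ᶠ y in 𝓝 x, DilAt f f' y r := by
  obtain ⟨a, b, ha, har, h⟩ := h
  filter_upwards [h.eventually_nhds] with y hy
  exact ⟨a, b, ha, har, hy⟩

/-- the base scale function as a twisted function -/
noncomputable def scaleTwist (S : D.Scale) : D.Twist where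
  F := fun e x => (S.u e x : ℂ)
  trans := fun e e' he he' x hx hx' => by
    obtain ⟨r, hr⟩ := isChart_dil he he' hx hx'
    filter_upwards [dilAt_eventually hr, e.open_source.mem_nhds hx, e'.open_source.mem_nhds hx']
      with y hy h1 h2
    rw [S.trans e e' he he' y h1 h2 r hy, S.trans e e' he he' x hx hx' r hr]
    push_cast
    ring
  smooth := S.smooth

theorem ref_idx_mem (R : D.Ref) {x : X} (hx : x ∉ D.cone) : x ∈ (R.B (R.idx x)).source :=
  ref_mem_ch R hx

theorem continuousOn_grad (F : D.Twist) {e : OpenPartialHomeomorph X ℂ} (he : D.IsChart e)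
    (v : ℂ) : ContinuousOn (fun x => fderiv ℝ (F.F e ∘ e.symm) (e x) v) e.source := by
  have h1 : ContinuousOn (fun z => fderiv ℝ (F.F e ∘ e.symm) z v) e.target := by
    intro z hz
    have hx : e.symm z ∈ e.source := e.map_target hz
    have := F.smooth e he _ hx
    rw [e.right_inv hz] at this
    have h2 : ContinuousAt (fderiv ℝ (F.F e ∘ e.symm)) z :=
      (this.fderiv_right (m := 0) (by norm_num)).continuousAt
    exact (h2.clm_apply continuousAt_const).continuousWithinAt
  exact h1.comp e.continuousOn fun x hx => e.map_source hx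

theorem measurable_pieces [T1Space X] [MeasurableSpace X] [BorelSpace X] (R : D.Ref)
    (hidx : Measurable R.idx) {f : X → ℂ} {g : ℕ → X → ℂ}
    (hg : ∀ n, ContinuousOn (g n) (R.B n).source) (hfg : ∀ x, x ∉ D.cone → f x = g (R.idx x) x) :
    Measurable f := by
  intro U hU
  have hset : f ⁻¹' U = (⋃ n, ({x | x ∈ (R.B n).source ∧ R.idx x = n} ∩
      ((R.B n).source ∩ g n ⁻¹' U))) \ D.cone ∪ (D.cone ∩ f ⁻¹' U) := by
    ext x
    constructor
    · intro hx
      by_cases hc : x ∈ D.cone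
      · exact Or.inr ⟨hc, hx⟩
      · left
        refine ⟨mem_iUnion.2 ⟨R.idx x, ⟨ref_idx_mem R hc, rfl⟩, ref_idx_mem R hc, ?_⟩, hc⟩
        rw [mem_preimage, ← hfg x hc]; exact hx
    · rintro (⟨hx, hc⟩ | ⟨hc, hx⟩)
      · rw [mem_iUnion] at hx
        obtain ⟨n, ⟨h1, h2⟩, h3, h4⟩ := hx
        rw [mem_preimage, hfg x hc, h2]; exact h4
      · exact hx
  rw [hset]
  have hcm : MeasurableSet D.cone := D.cone_finite.measurableSet
  refine MeasurableSet.union (MeasurableSet.diff (MeasurableSet.iUnion fun n => ?_) hcm) ?_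
  · refine MeasurableSet.inter ?_ ?_
    · exact ((R.B n).open_source.measurableSet).inter (hidx (measurableSet_singleton n))
    · have hcont : Continuous (fun x : (R.B n).source => g n x.1) :=
        continuousOn_iff_continuous_domRestrict.1 (hg n)
      have hm := hcont.measurable hU
      have hemb := MeasurableEmbedding.subtype_coe (R.B n).open_source.measurableSet
      have := hemb.measurableSet_image.2 hm
      convert this using 1
      ext x
      constructor
      · rintro ⟨h1, h2⟩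
        exact ⟨⟨x, h1⟩, h2, rfl⟩
      · rintro ⟨y, hy, rfl⟩
        exact ⟨y.2, hy⟩
  · exact (D.cone_finite.subset inter_subset_left).measurableSet

theorem measurable_gx [T1Space X] [MeasurableSpace X] [BorelSpace X] (R : D.Ref)
    (hidx : Measurable R.idx) (F : D.Twist) : Measurable (R.gx F.F) :=
  measurable_pieces R hidx (g := fun n x => fderiv ℝ (F.F (R.B n) ∘ (R.B n).symm) (R.B n x) 1)
    (fun n => continuousOn_grad F (R.ball n).1 1) (fun _ _ => rfl)

theorem measurable_gy [T1Space X] [MeasurableSpace X] [BorelSpace X] (R : D.Ref)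
    (hidx : Measurable R.idx) (F : D.Twist) : Measurable (R.gy F.F) :=
  measurable_pieces R hidx
    (g := fun n x => fderiv ℝ (F.F (R.B n) ∘ (R.B n).symm) (R.B n x) Complex.I)
    (fun n => continuousOn_grad F (R.ball n).1 Complex.I) (fun _ _ => rfl)

/-- squared norm transfer -/
theorem lintegral_ball_sq [MeasurableSpace X] (R : D.Ref)
    {b : OpenPartialHomeomorph X ℂ}
    (hT : ∀ F : X → ENNReal, Measurable F → ∫⁻ x in b.source, F x ∂(R.mu) =
      ∫⁻ z in B1, F (b.symm z) * ENNReal.ofReal ((rat b (R.ch (b.symm z)) (b.symm z)) ^ 2))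
    {f : X → ℂ} (hf : Measurable f) :
    ∫⁻ x in b.source, ‖f x‖ₑ ^ 2 ∂(R.mu) = ∫⁻ z in B1, ‖R.loc b f z‖ₑ ^ 2 := by
  rw [hT _ (hf.enorm.pow_const 2)]
  congr 1
  funext z
  rw [Ref.loc, enorm_mul, mul_pow, mul_comm]
  congr 1
  rw [← ofReal_norm, Complex.norm_real, Real.norm_eq_abs,
    ← ENNReal.ofReal_pow (abs_nonneg _), sq_abs]

/-- plane bound on the half ball -/
theorem lintegral_half_lt_top {h : ℂ → ℂ} (hh : ContinuousOn h B1) :
    ∫⁻ z in Bh, ‖h z‖ₑ ^ 2 < ⊤ := by
  have hsub : closedBall (0 : ℂ) (1 / 2) ⊆ B1 := closedBall_subset_ball (by norm_num)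
  obtain ⟨M, hM⟩ := (isCompact_closedBall (0 : ℂ) (1 / 2)).exists_bound_of_continuousOn
    (hh.mono hsub)
  calc ∫⁻ z in Bh, ‖h z‖ₑ ^ 2 ≤ ∫⁻ _ in Bh, (ENNReal.ofReal M) ^ 2 := by
        apply setLIntegral_mono' measurableSet_Bh
        intro z hz
        gcongr
        rw [← ofReal_norm]
        exact ENNReal.ofReal_le_ofReal (hM z (ball_subset_closedBall hz))
    _ < ⊤ := by
        rw [setLIntegral_const]
        exact ENNReal.mul_lt_top (by simp) measure_ball_lt_top

theorem memLp_of_vanish [CompactSpace X] [T2Space X] [MeasurableSpace X] [BorelSpace X]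
    (R : D.Ref) (hcone : R.mu D.cone = 0)
    (hT : ∀ b, D.IsBall b → ∀ F : X → ENNReal, Measurable F → ∫⁻ x in b.source, F x ∂(R.mu) =
      ∫⁻ z in B1, F (b.symm z) * ENNReal.ofReal ((rat b (R.ch (b.symm z)) (b.symm z)) ^ 2))
    {f : X → ℂ} (hf : Measurable f)
    (hloc : ∀ b, D.IsBall b → ∃ h : ℂ → ℂ, ContinuousOn h B1 ∧ ∀ z ∈ B1, R.loc b f z = h z)
    (hv : ∀ p ∈ D.cone, ∀ᶠ y in 𝓝 p, y ∉ D.cone → f y = 0) : MemLp f 2 R.mu := by
  refine ⟨hf.aestronglyMeasurable, ?_⟩
  have hN : ∀ p : X, ∃ N : Set X, IsOpen N ∧ (p ∈ D.cone → p ∈ N ∧ ∀ y ∈ N, y ∉ D.cone → f y = 0) := by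
    intro p
    by_cases hp : p ∈ D.cone
    · obtain ⟨N, h1, h2, h3⟩ := eventually_nhds_iff.1 (hv p hp)
      exact ⟨N, h2, fun _ => ⟨h3, h1⟩⟩
    · exact ⟨∅, isOpen_empty, fun h => absurd h hp⟩
  choose N hN1 hN2 using hN
  let K : Set X := (⋃ p ∈ D.cone, N p)ᶜ
  have hK : IsCompact K := (isOpen_biUnion fun p _ => hN1 p).isClosed_compl.isCompact
  have hKc : K ⊆ (D.cone)ᶜ := fun x hx hxc => hx (mem_biUnion hxc (hN2 x hxc).1)
  have hzero : ∀ x, x ∉ D.cone → x ∉ K → f x = 0 := by
    intro x hx hxK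
    simp only [K, mem_compl_iff, not_not, mem_iUnion] at hxK
    obtain ⟨p, hp, hxp⟩ := hxK
    exact (hN2 p hp).2 x hxp hx
  choose b hb1 hb2 hb3 _ using fun x : K => sb_BALL X D x.1 (hKc x.2) univ univ_mem
  obtain ⟨t, ht⟩ := hK.elim_nhds_subcover' (fun x hx => (b ⟨x, hx⟩).source ∩ (b ⟨x, hx⟩) ⁻¹' Bh)
    (fun x hx => by
      refine ((b ⟨x, hx⟩).isOpen_inter_preimage isOpen_ball).mem_nhds ⟨hb2 ⟨x, hx⟩, ?_⟩
      rw [mem_preimage, hb3 ⟨x, hx⟩]
      exact mem_ball_self (by norm_num))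
  rw [eLpNorm_lt_top_iff_lintegral_rpow_enorm_lt_top (by norm_num) (by norm_num)]
  have h2 : ∀ x, ‖f x‖ₑ ^ (2 : ℝ≥0∞).toReal = ‖f x‖ₑ ^ 2 := by
    intro x; simp
  simp_rw [h2]
  have hpiece : ∀ x : K, ∫⁻ y in (b x).source ∩ (b x) ⁻¹' Bh, ‖f y‖ₑ ^ 2 ∂(R.mu) < ⊤ := by
    intro x
    have hmeas : MeasurableSet ((b x).source ∩ (b x) ⁻¹' Bh) :=
      ((b x).isOpen_inter_preimage isOpen_ball).measurableSet
    have hind : Measurable (((b x).source ∩ (b x) ⁻¹' Bh).indicator f) := hf.indicator hmeas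
    have h3 := lintegral_ball_sq R (hT (b x) (hb1 x)) hind
    have h4 : ∫⁻ y in (b x).source ∩ (b x) ⁻¹' Bh, ‖f y‖ₑ ^ 2 ∂(R.mu) =
        ∫⁻ y in (b x).source, ‖((b x).source ∩ (b x) ⁻¹' Bh).indicator f y‖ₑ ^ 2 ∂(R.mu) := by
      have h5 : ∀ y, ‖((b x).source ∩ (b x) ⁻¹' Bh).indicator f y‖ₑ ^ 2 =
          ((b x).source ∩ (b x) ⁻¹' Bh).indicator (fun y => ‖f y‖ₑ ^ 2) y := by
        intro y
        by_cases hy : y ∈ (b x).source ∩ (b x) ⁻¹' Bh
        · rw [indicator_of_mem hy, indicator_of_mem hy]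
        · rw [indicator_of_notMem hy, indicator_of_notMem hy]; simp
      simp_rw [h5]
      rw [lintegral_indicator hmeas, Measure.restrict_restrict hmeas]
      congr 2
      ext y
      simp only [mem_inter_iff]
      tauto
    rw [h4, h3]
    obtain ⟨h, hh1, hh2⟩ := hloc (b x) (hb1 x)
    have h6 : ∀ z ∈ B1, ‖R.loc (b x) (((b x).source ∩ (b x) ⁻¹' Bh).indicator f) z‖ₑ ^ 2 =
        Bh.indicator (fun z => ‖h z‖ₑ ^ 2) z := by
      intro z hz
      by_cases hzh : z ∈ Bh
      · rw [indicator_of_mem hzh, ← hh2 z hz, Ref.loc, Ref.loc, indicator_of_mem]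
        refine ⟨ball_symm_mem (hb1 x) hz, ?_⟩
        rw [mem_preimage, ball_right_inv (hb1 x) hz]; exact hzh
      · rw [indicator_of_notMem hzh, Ref.loc, indicator_of_notMem]
        · simp
        · rintro ⟨-, h7⟩
          rw [mem_preimage, ball_right_inv (hb1 x) hz] at h7
          exact hzh h7
    rw [setLIntegral_congr_fun measurableSet_B1 h6, setLIntegral_indicator measurableSet_Bh]
    have h8 : Bh ∩ B1 = Bh := inter_eq_left.2 (ball_subset_ball (by norm_num))
    rw [h8]
    exact lintegral_half_lt_top hh1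
  have hae : ∀ᵐ x ∂(R.mu), ‖f x‖ₑ ^ 2 ≤
      ∑ i ∈ t, ((b i).source ∩ (b i) ⁻¹' Bh).indicator (fun y => ‖f y‖ₑ ^ 2) x := by
    have hc : ∀ᵐ x ∂(R.mu), x ∉ D.cone := by
      rw [ae_iff]; simpa using hcone
    filter_upwards [hc] with x hx
    by_cases hxK : x ∈ K
    · have := ht hxK
      rw [mem_iUnion₂] at this
      obtain ⟨w, hw, hxw⟩ := this
      have h9 : ((b w).source ∩ (b w) ⁻¹' Bh).indicator (fun y => ‖f y‖ₑ ^ 2) x = ‖f x‖ₑ ^ 2 :=
        indicator_of_mem hxw _
      rw [← h9]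
      exact Finset.single_le_sum (f := fun i => ((b i).source ∩ (b i) ⁻¹' Bh).indicator
        (fun y => ‖f y‖ₑ ^ 2) x) (fun _ _ => by positivity) hw
    · rw [hzero x hx hxK]; simp
  refine (lintegral_mono_ae hae).trans_lt ?_
  rw [lintegral_finsetSum]
  · rw [ENNReal.sum_lt_top]
    intro i _
    rw [lintegral_indicator ((b i).isOpen_inter_preimage isOpen_Bh).measurableSet]
    exact hpiece i
  · intro i _
    exact (hf.enorm.pow_const 2).indicator
      ((b i).isOpen_inter_preimage isOpen_Bh).measurableSet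

end

theorem sb_MEM (hM : SB_MEAS.{u}) : SB_MEM.{u} := by
  intro X _ _ _ _ _ D R
  obtain ⟨hcone, -, -, -, hidx, hT⟩ := hM X D R
  have hT' := fun b hb => (hT b hb).2
  have hmain : ∀ F : D.Twist, (∀ p ∈ D.cone, ∀ᶠ y in 𝓝 p, y ∉ D.cone → ∀ e, D.IsChart e →
      y ∈ e.source → ∀ᶠ w in 𝓝 y, F.F e w = F.F e y) →
      MemLp (R.gx F.F) 2 R.mu ∧ MemLp (R.gy F.F) 2 R.mu := by
    intro F hF
    have hgrad0 : ∀ y, y ∉ D.cone → (∀ e, D.IsChart e →
        y ∈ e.source → ∀ᶠ w in 𝓝 y, F.F e w = F.F e y) →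
        ∀ v, fderiv ℝ (F.F (R.ch y) ∘ (R.ch y).symm) (R.ch y y) v = 0 := by
      intro y hy h v
      have h1 := h (R.ch y) (ref_ch_isBall R y).1 (ref_mem_ch R hy)
      have hc : Tendsto (R.ch y).symm (𝓝 (R.ch y y)) (𝓝 y) := by
        have := ((R.ch y).symm.continuousAt (x := R.ch y y)
          (by simpa using (R.ch y).map_source (ref_mem_ch R hy))).tendsto
        rwa [(R.ch y).left_inv (ref_mem_ch R hy)] at this
      have h2 : (F.F (R.ch y) ∘ (R.ch y).symm) =ᶠ[𝓝 (R.ch y y)] fun _ => F.F (R.ch y) y :=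
        hc.eventually h1
      rw [h2.fderiv_eq]
      simp
    refine ⟨memLp_of_vanish R hcone hT' (measurable_gx R hidx F) ?_ ?_,
      memLp_of_vanish R hcone hT' (measurable_gy R hidx F) ?_ ?_⟩
    · intro b hb
      refine ⟨fun z => dx (F.F b ∘ b.symm) z, ?_, fun z hz => (sb_LOCG X D R F b hb z hz).1⟩
      have h1 := continuousOn_grad F hb.1 1
      have h2 : ContinuousOn b.symm B1 := by
        have := b.symm.continuousOn
        simpa [hb.2] using this
      refine (h1.comp h2 fun z hz => ball_symm_mem hb hz).congr fun z hz => ?_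
      simp only [Function.comp]
      rw [ball_right_inv hb hz]; rfl
    · intro p hp
      filter_upwards [hF p hp] with y hy hyc
      exact hgrad0 y hyc (hy hyc) 1
    · intro b hb
      refine ⟨fun z => dy (F.F b ∘ b.symm) z, ?_, fun z hz => (sb_LOCG X D R F b hb z hz).2⟩
      have h1 := continuousOn_grad F hb.1 Complex.I
      have h2 : ContinuousOn b.symm B1 := by
        have := b.symm.continuousOn
        simpa [hb.2] using this
      refine (h1.comp h2 fun z hz => ball_symm_mem hb hz).congr fun z hz => ?_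
      simp only [Function.comp]
      rw [ball_right_inv hb hz]; rfl
    · intro p hp
      filter_upwards [hF p hp] with y hy hyc
      exact hgrad0 y hyc (hy hyc) Complex.I
  constructor
  · intro ψ hψ
    refine hmain (testTwist hψ) fun p hp => ?_
    filter_upwards [(hψ.2 p hp).eventually_nhds] with y hy _ e _ _
    have h0 := hy.self_of_nhds
    filter_upwards [hy] with w hw
    change ψ w = ψ y
    rw [hw, h0]
  · intro S
    refine hmain (scaleTwist S) fun p hp => ?_
    obtain ⟨k, ψ, hψ, hflat⟩ := S.flat p hp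
    filter_upwards [ψ.open_source.mem_nhds hψ.src] with y hy hyc e he hye
    have hyp : y ≠ p := fun h => hyc (h ▸ hp)
    obtain ⟨a, β, ha, h⟩ := (hψ.model y hy hyp).2 e he hye
    have h0 := hflat y hy hyp e he hye a β ha h
    filter_upwards [h.eventually_nhds, ψ.open_source.mem_nhds hy, e.open_source.mem_nhds hye,
      isOpen_ne.mem_nhds hyp] with w h1 h2 h3 h4
    have h5 := hflat w h2 h4 e he h3 a β ha h1
    change ((S.u e w : ℝ) : ℂ) = ((S.u e y : ℝ) : ℂ)
    rw [h5, h0]

end Pool.Agent.Helper73.Dil
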