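import Pool.Agent.Helper73.Dil.Surf

open Topology Set Filter MeasureTheory Metric

namespace Pool.Agent.Helper73.Dil

universe u

open DilationSurface

theorem I_mem_UH : Complex.I ∈ UH := by simp [UH]

theorem hs_sq (g : G) : hs g ^ 2 = g.1 0 0 ^ 2 + g.1 0 1 ^ 2 + g.1 1 0 ^ 2 + g.1 1 1 ^ 2 := by
  rw [hs, Real.sq_sqrt]; positivity

theorem det_eq (g : G) : g.1 0 0 * g.1 1 1 - g.1 0 1 * g.1 1 0 = 1 := by
  have := g.2
  rwa [Matrix.det_fin_two] at this

theorem one_le_hs (g : G) : 1 ≤ hs g := by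
  rw [hs]
  apply Real.one_le_sqrt.2
  have := det_eq g
  nlinarith [sq_nonneg (g.1 0 0 - g.1 1 1), sq_nonneg (g.1 0 1 + g.1 1 0)]

theorem tau_den_ne (g : G) : ((g.1 0 0 : ℂ) + Complex.I * g.1 1 0) ≠ 0 := by
  intro h
  have h1 := congrArg Complex.re h
  have h2 := congrArg Complex.im h
  simp at h1 h2
  have := det_eq g
  rw [h1, h2] at this
  simp at this

theorem tau_im (g : G) : (tau g).im = 1 / (g.1 0 0 ^ 2 + g.1 1 0 ^ 2) := by
  have hd := det_eq g
  have hne : g.1 0 0 ^ 2 + g.1 1 0 ^ 2 ≠ 0 := by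
    intro h
    have h1 : g.1 0 0 = 0 := by nlinarith [sq_nonneg (g.1 0 0), sq_nonneg (g.1 1 0)]
    have h2 : g.1 1 0 = 0 := by nlinarith [sq_nonneg (g.1 0 0), sq_nonneg (g.1 1 0)]
    rw [h1, h2] at hd; simp at hd
  rw [tau, Complex.div_im]
  simp [Complex.normSq_apply]
  have h3 : g.1 0 0 * g.1 0 0 + g.1 1 0 * g.1 1 0 = g.1 0 0 ^ 2 + g.1 1 0 ^ 2 := by ring
  rw [h3]
  field_simp
  linarith

theorem tau_normSq (g : G) : Complex.normSq (tau g) =
    (g.1 0 1 ^ 2 + g.1 1 1 ^ 2) / (g.1 0 0 ^ 2 + g.1 1 0 ^ 2) := by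
  rw [tau, map_div₀]
  simp [Complex.normSq_apply]
  congr 1 <;> ring

theorem hs_tau (g : G) : hs g ^ 2 = (1 + Complex.normSq (tau g)) / (tau g).im := by
  rw [hs_sq, tau_im, tau_normSq]
  have hne : g.1 0 0 ^ 2 + g.1 1 0 ^ 2 ≠ 0 := by
    intro h
    have hd := det_eq g
    have h1 : g.1 0 0 = 0 := by nlinarith [sq_nonneg (g.1 0 0), sq_nonneg (g.1 1 0)]
    have h2 : g.1 1 0 = 0 := by nlinarith [sq_nonneg (g.1 0 0), sq_nonneg (g.1 1 0)]
    rw [h1, h2] at hd; simp at hd
  field_simp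
  ring

theorem hs_bdd_on (K : Set ℂ) (hK : K ⊆ UH) (hc : IsCompact K) :
    ∃ M : ℝ, ∀ g, tau g ∈ K → hs g ≤ M := by
  have hcont : ContinuousOn (fun t : ℂ => (1 + Complex.normSq t) / t.im) K := by
    apply ContinuousOn.div
    · exact (continuous_const.add Complex.continuous_normSq).continuousOn
    · exact Complex.continuous_im.continuousOn
    · intro t ht; exact (hK ht).ne'
  obtain ⟨M, hM⟩ := (hc.image_of_continuousOn hcont).bddAbove
  refine ⟨Real.sqrt M, fun g hg => ?_⟩
  have h1 : hs g ^ 2 ≤ M := by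
    rw [hs_tau]
    exact hM ⟨_, hg, rfl⟩
  have h2 : hs g = Real.sqrt (hs g ^ 2) := by
    rw [Real.sqrt_sq]; exact le_trans zero_le_one (one_le_hs g)
  rw [h2]
  exact Real.sqrt_le_sqrt h1

section
variable {X : Type u} [TopologicalSpace X]

/-- regular points accumulate at cone points, along a sequence -/
theorem exists_seq (D : DilationSurface X) (x : X) :
    ∃ y : ℕ → X, (∀ n, y n ∉ D.cone) ∧ Tendsto y atTop (𝓝 x) := by
  by_cases hx : x ∈ D.cone
  · obtain ⟨k, ψ, hk, hs, h0, hm⟩ := D.cone_model x hx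
    have hopen : ψ.target ∈ 𝓝 (0 : ℂ) := by
      rw [← h0]; exact ψ.open_target.mem_nhds (ψ.map_source hs)
    obtain ⟨ε, hε, hball⟩ := Metric.mem_nhds_iff.1 hopen
    let z : ℕ → ℂ := fun n => ((ε / 2 / (n + 1) : ℝ) : ℂ)
    have hz : ∀ n, z n ∈ ψ.target := by
      intro n
      apply hball
      rw [mem_ball_zero_iff]
      simp only [z, Complex.norm_real, Real.norm_eq_abs]
      rw [abs_of_pos (by positivity)]
      rw [div_lt_iff₀ (by positivity)]
      nlinarith [(Nat.cast_nonneg n : (0 : ℝ) ≤ n)]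
    refine ⟨fun n => ψ.symm (z n), fun n => ?_, ?_⟩
    · have hs' : ψ.symm (z n) ∈ ψ.source := ψ.map_target (hz n)
      refine (hm _ hs' ?_).1
      intro h
      have : z n = 0 := by
        rw [← ψ.right_inv (hz n), h, h0]
      simp only [z] at this
      have h2 : (ε / 2 / (n + 1) : ℝ) = 0 := by exact_mod_cast this
      have : (0 : ℝ) < ε / 2 / (n + 1) := by positivity
      linarith
    · have hzt : Tendsto z atTop (𝓝 0) := by
        have : Tendsto (fun n : ℕ => (ε / 2 / ((n : ℝ) + 1))) atTop (𝓝 0) := by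
          have h := tendsto_one_div_add_atTop_nhds_zero_nat (𝕜 := ℝ)
          have h' := h.const_mul (ε / 2)
          simpa [div_eq_mul_inv] using h'
        have h3 := (Complex.continuous_ofReal.tendsto 0).comp this
        simpa [z, Function.comp_def] using h3
      have hc : ContinuousAt ψ.symm 0 := by
        apply ψ.symm.continuousAt
        simpa using (mem_of_mem_nhds hopen)
      have h5 : ψ.symm 0 = x := by rw [← h0, ψ.left_inv hs]
      have := hc.tendsto.comp hzt
      rw [h5] at this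
      exact this
  · exact ⟨fun _ => x, fun _ => hx, tendsto_const_nhds⟩

theorem eq_of_regular (D : DilationSurface X) {f f' : X → ℝ} (hf : Continuous f)
    (hf' : Continuous f') (h : ∀ x, x ∉ D.cone → f x = f' x) : ∀ x, f x = f' x := by
  intro x
  obtain ⟨y, hy, hyx⟩ := exists_seq D x
  have h1 : Tendsto (fun n => f (y n)) atTop (𝓝 (f x)) := (hf.tendsto x).comp hyx
  have h2 : Tendsto (fun n => f' (y n)) atTop (𝓝 (f' x)) := (hf'.tendsto x).comp hyx
  have h3 : (fun n => f (y n)) = fun n => f' (y n) := by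
    funext n; exact h _ (hy n)
  rw [h3] at h1
  exact tendsto_nhds_unique h1 h2

theorem isSol_congr [MeasurableSpace X] {D : DilationSurface X} {R : D.Ref} {S : D.Scale} {t : ℂ}
    {c : R.H} {f f' : X → ℝ} (h : R.IsSol S t c f) (hff : ∀ x, x ∉ D.cone → f' x = f x) :
    R.IsSol S t c f' := by
  intro b hb
  obtain ⟨w, h1, h2, h3⟩ := h b hb
  refine ⟨w, h1, h2, fun z hz => ?_⟩
  have hz' : z ∈ b.target := by rw [hb.2]; exact hz
  rw [hff _ (hb.1.1 _ (b.map_target hz'))]
  exact h3 z hz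

end

theorem sb_MAIN (hREF : SB_REF.{u}) (hSCALE : SB_SCALE.{u}) (hVNOT : SB_VNOT.{u})
    (hABS : SB_ABS.{u}) (hAFF : SB_AFF.{u}) (hABSEQ : ST_ABSEQ.{u}) (hSTEPA : ST_STEPA.{u})
    (hABSA2 : ST_ABSA2.{u}) (hSOL : SB_SOL.{u}) (hEXT : SB_EXT.{u}) (hTORUS : SB_TORUS.{u})
    (hAREA : SB_AREA.{u}) (hHOL : SB_HOL.{u}) (hLIMH : ST_LIMH) (hMEAN : ST_MEAN)
    (hTRANS : ST_TRANS) (hGR : SB_GR.{u}) (hSOLU : SB_SOLU.{u}) (hJENSEN : ST_JENSEN.{u})
    (hFINC : ST_FINC.{u}) : SB_MAIN.{u} := by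
  intro X _ _ _ _ D hol hL
  borelize X
  have hreg : ∃ x, x ∉ D.cone := by
    obtain ⟨x, γ, hγ, -⟩ := hol
    exact ⟨_, hγ 0⟩
  obtain ⟨x0, hx0⟩ := hreg
  obtain ⟨R⟩ := hREF X D ⟨x0, hx0⟩
  obtain ⟨S⟩ := hSCALE X D
  obtain ⟨A, hA⟩ := hABS X D R S (hVNOT X D R S hol)
  have hinv : ∀ γ ∈ D.VeechGroup, ∀ g, En A (tau (g * γ)) = En A (tau g) := by
    rintro γ ⟨φ, hφ⟩ g
    obtain ⟨T, j, -, -, hT1, hT2, hT3, -, -⟩ := hAFF X D R S A φ γ hA hφ
    exact (hABSEQ R.H A T γ hT1 hT2 hT3 g).1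
  obtain ⟨E0, hE0, hEn⟩ := hSTEPA R.H A D.VeechGroup hL hinv
  obtain ⟨c, hc, hcrep⟩ := hABSA2 R.H A E0 hEn
  have hf1 : ∀ t : ℂ, ∃ f : X → ℝ, t ∈ UH → Continuous f ∧ R.IsSol S t (c t) f := by
    intro t
    by_cases ht : t ∈ UH
    · obtain ⟨f, hf⟩ := hSOL X D R S A t (c t) hA ht (hcrep t ht).1
      obtain ⟨f', hf'1, hf'2, -⟩ := hEXT X D R S t (c t) f ht hf
      exact ⟨f', fun _ => ⟨hf'1, isSol_congr hf hf'2⟩⟩
    · exact ⟨0, fun h => absurd h ht⟩
  choose f hf using hf1
  have hcne : c Complex.I ≠ 0 := by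
    intro h
    have := (hcrep Complex.I I_mem_UH).2.1
    rw [h] at this
    simp at this
    linarith
  by_cases hcone : D.cone = ∅
  · exact hTORUS X D R S (c Complex.I) (f Complex.I) hcone (hf _ I_mem_UH).2 hcne hL.1
  have hMEAN' := hMEAN (fun _ => 0) (differentiableOn_const 0) 0 1 le_rfl
  have htau : ∀ g, tau g ∈ UH := hMEAN'.1
  have htauc : Continuous (fun g => tau g) := hMEAN'.2.1
  have htaur : ∀ θ g, tau (rot θ * g) = tau g := hMEAN'.2.2.1
  obtain ⟨C, hC⟩ := hGR X D R S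
  have hen : ∀ g, Real.sqrt (tau g).im * ‖c (tau g)‖ = Real.sqrt E0 := by
    intro g
    have h1 := (hcrep (tau g) (htau g)).2.1
    rw [← h1, Real.sqrt_mul (htau g).le, Real.sqrt_sq (norm_nonneg _)]
  have hbd : ∀ g x y, |f (tau g) x - f (tau g) y| ≤ (|C| * (1 + Real.sqrt E0)) * hs g := by
    intro g x y
    have h1 := hC g (c (tau g)) (f (tau g)) (hf _ (htau g)).2 (hf _ (htau g)).1 x y
    rw [mul_assoc (hs g), hen g] at h1
    have h2 := one_le_hs g
    have h3 : C ≤ |C| := le_abs_self C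
    have h4 : 0 ≤ Real.sqrt E0 := Real.sqrt_nonneg _
    calc |f (tau g) x - f (tau g) y| ≤ C * (1 + hs g * Real.sqrt E0) := h1
      _ ≤ |C| * (1 + hs g * Real.sqrt E0) := by
          apply mul_le_mul_of_nonneg_right h3
          positivity
      _ ≤ |C| * (hs g * 1 + hs g * Real.sqrt E0) := by
          apply mul_le_mul_of_nonneg_left _ (abs_nonneg C)
          linarith
      _ = _ := by ring
  -- harmonic dependence for all pairs of points
  have hlim : ∀ (x : X) (F : ℂ → X → ℝ) (M : G → ℝ), (∀ t ∈ UH, Continuous (F t)) →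
      (∀ x, x ∉ D.cone → ∃ h : ℂ → ℂ, DifferentiableOn ℂ h UH ∧ ∀ t ∈ UH, F t x = (h t).re) →
      (∀ g x, |F (tau g) x| ≤ (|C| * (1 + Real.sqrt E0)) * hs g) →
      ∃ h : ℂ → ℂ, DifferentiableOn ℂ h UH ∧ ∀ t ∈ UH, F t x = (h t).re := by
    intro x F _ hFc hFr hFb
    obtain ⟨y, hy, hyx⟩ := exists_seq D x
    choose h hh1 hh2 using fun n => hFr (y n) (hy n)
    refine hLIMH h (fun t => F t x) hh1 ?_ ?_
    · intro K hK hKc
      obtain ⟨M, hM⟩ := hs_bdd_on K hK hKc
      refine ⟨(|C| * (1 + Real.sqrt E0)) * M, fun n t ht => ?_⟩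
      obtain ⟨g, hg⟩ := hTRANS.1 t (hK ht)
      rw [← hh2 n t (hK ht), ← hg]
      refine (hFb g (y n)).trans ?_
      apply mul_le_mul_of_nonneg_left
      · apply hM; rw [hg]; exact ht
      · positivity
    · intro t ht
      have h1 : (fun n => (h n t).re) = fun n => F t (y n) := by
        funext n; rw [hh2 n t ht]
      rw [h1]
      exact ((hFc t ht).tendsto x).comp hyx
  have hharm : ∀ x y, ∃ h : ℂ → ℂ, DifferentiableOn ℂ h UH ∧
      ∀ t ∈ UH, f t x - f t y = (h t).re := by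
    have hstep : ∀ x y, y ∉ D.cone → ∃ h : ℂ → ℂ, DifferentiableOn ℂ h UH ∧
        ∀ t ∈ UH, f t x - f t y = (h t).re := by
      intro x y hy
      exact hlim x (fun t x => f t x - f t y) (fun _ => 0)
        (fun t ht => ((hf t ht).1).sub continuous_const)
        (fun x hx => hHOL X D R S A c f hA hc (fun t ht => ⟨(hcrep t ht).1, (hf t ht).2⟩) x y hx hy)
        (fun g x => hbd g x y)
    intro x y
    have h2 := hlim y (fun t y => f t x - f t y) (fun _ => 0)
        (fun t ht => continuous_const.sub ((hf t ht).1))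
        (fun y hy => hstep x y hy)
        (fun g y => hbd g x y)
    exact h2
  have hCMV : ∀ x y, CMV fun g => f (tau g) x - f (tau g) y := by
    intro x y
    obtain ⟨h, hh1, hh2⟩ := hharm x y
    have hopen : IsOpen UH := isOpen_lt continuous_const Complex.continuous_im
    have hcont : Continuous fun g => h (tau g) := by
      rw [continuous_iff_continuousAt]
      intro g
      exact ((hh1.differentiableAt (hopen.mem_nhds (htau g))).continuousAt).comp
        htauc.continuousAt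
    have heq : (fun g => f (tau g) x - f (tau g) y) = fun g => (h (tau g)).re := by
      funext g; exact hh2 _ (htau g)
    rw [heq]
    refine ⟨Complex.continuous_re.comp hcont, fun r g hr => ?_⟩
    have h1 := (hMEAN h hh1 r g hr).2.2.2
    have h2 := congrArg Complex.re h1
    beta_reduce
    rw [← h2]
    have hint : IntervalIntegrable (fun θ => h (tau (dia r * rot θ * g))) volume 0
        (2 * Real.pi) := by
      apply Continuous.intervalIntegrable
      apply hcont.comp
      apply Continuous.mul _ continuous_const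
      apply Continuous.mul continuous_const
      have : Continuous fun θ : ℝ => (rot θ : G) := by
        apply Continuous.subtype_mk
        apply continuous_matrix
        intro i j
        fin_cases i <;> fin_cases j <;> simp <;> fun_prop
      exact this
    have h3 : (∫ θ in (0 : ℝ)..(2 * Real.pi), h (tau (dia r * rot θ * g))).re =
        ∫ θ in (0 : ℝ)..(2 * Real.pi), (h (tau (dia r * rot θ * g))).re := by
      have := Complex.reCLM.intervalIntegral_comp_comm hint
      simpa using this.symm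
    rw [← h3]
    have h4 : (1 / (2 * (Real.pi : ℂ))) = ((1 / (2 * Real.pi) : ℝ) : ℂ) := by push_cast; ring
    rw [h4, Complex.re_ofReal_mul]
  have hJ := hJENSEN X D.cone_finite.toFinset (S.area R) D.VeechGroup (fun g x => f (tau g) x)
    (|C| * (1 + Real.sqrt E0)) (hAREA X D R S).1 (hAREA X D R S).2
    (by
      rw [Set.Finite.toFinset_nonempty]
      exact Set.nonempty_iff_ne_empty.2 hcone) hL (fun g => (hf _ (htau g)).1)
    (fun x p _ => hCMV x p) (fun θ g x y => by simp only [htaur]) (fun g x y => hbd g x y)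
    (by
      rintro γ ⟨φ, hφ⟩
      obtain ⟨T, j, hj1, -, hT1, hT2, hT3, hT4, hT5⟩ := hAFF X D R S A φ γ hA hφ
      refine ⟨φ, j, fun x => ?_, hj1, ?_, hT4⟩
      · simp only [Set.Finite.mem_toFinset]; exact hφ.1 x
      · intro g x y
        have hpull := (hABSEQ R.H A T γ hT1 hT2 hT3 g).2 _ _ (hcrep _ (htau g)).1
          (hcrep _ (htau (g * γ))).1
        have hsol2 := hT5 g _ _ _ (hf _ (htau g)).2 hpull
        obtain ⟨k, hk⟩ := (hSOLU X D R S A hA).1 _ _ _ _ (htau (g * γ))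
          (hf _ (htau (g * γ))).2 hsol2
        have hall : ∀ x, f (tau (g * γ)) x = (f (tau g) (φ x) + j x) + k := by
          refine eq_of_regular D (hf _ (htau (g * γ))).1 ?_ ?_
          · exact (((hf _ (htau g)).1.comp φ.continuous).add hj1).add continuous_const
          · intro x hx
            have := hk x hx
            linarith
        rw [hall x, hall y]
        ring)
  have hconst : ∀ t ∈ UH, ∀ t' ∈ UH, c t + A.J.c (c t) = c t' + A.J.c (c t') ∧
      t • c t + A.J.c (t • c t) = t' • c t' + A.J.c (t' • c t') := by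
    intro t ht t' ht'
    obtain ⟨g, hg⟩ := hTRANS.1 t ht
    obtain ⟨g', hg'⟩ := hTRANS.1 t' ht'
    refine (hSOLU X D R S A hA).2 t t' (c t) (c t') (f t) (f t') (f t x0 - f t' x0) ht ht'
      (hf t ht).2 (hf t' ht').2 ?_
    intro x _
    have := hJ g g' x x0
    simp only [hg, hg'] at this
    linarith
  exact hcne (hFINC R.H A.J c hc hconst _ I_mem_UH)

end Pool.Agent.Helper73.Dil
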