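import Pool.Agent.Helper73.Dil.LocG
import Pool.Agent.Helper73.Dil.Main

open Topology Set Filter MeasureTheory Metric

namespace Pool.Agent.Helper73.Dil

universe u

open DilationSurface

theorem isConnected_punctured : IsConnected (B1 \ {0}) := by
  have h0 : IsConnected ({0}ᶜ : Set ℂ) :=
    isConnected_compl_singleton_of_one_lt_rank (by simp) 0
  let f : ℂ → ℂ := fun y => ((1 + ‖y‖ : ℝ) : ℂ)⁻¹ * y
  have hf : Continuous f := by
    apply Continuous.mul _ continuous_id
    apply Continuous.inv₀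
    · fun_prop
    · intro y
      have : (0 : ℝ) < 1 + ‖y‖ := by positivity
      exact_mod_cast this.ne'
  have himg : f '' {0}ᶜ = B1 \ {0} := by
    ext w
    constructor
    · rintro ⟨y, hy, rfl⟩
      have hpos : (0 : ℝ) < 1 + ‖y‖ := by positivity
      have hy0 : y ≠ 0 := hy
      refine ⟨?_, ?_⟩
      · rw [B1, mem_ball_zero_iff]
        simp only [f, norm_mul, norm_inv, Complex.norm_real, Real.norm_eq_abs, abs_of_pos hpos]
        rw [inv_mul_lt_iff₀ hpos]
        linarith
      · have h1 : (((1 + ‖y‖ : ℝ) : ℂ)⁻¹) ≠ 0 := by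
          apply inv_ne_zero; exact_mod_cast hpos.ne'
        exact mul_ne_zero h1 hy0
    · rintro ⟨hw, hw0⟩
      rw [B1, mem_ball_zero_iff] at hw
      have hw0' : w ≠ 0 := hw0
      have hpos : 0 < 1 - ‖w‖ := by linarith
      have hc : ((1 - ‖w‖ : ℝ) : ℂ) ≠ 0 := by exact_mod_cast hpos.ne'
      refine ⟨((1 - ‖w‖ : ℝ) : ℂ)⁻¹ * w, ?_, ?_⟩
      · exact mul_ne_zero (inv_ne_zero hc) hw0'
      · simp only [f]
        have h1 : ‖((1 - ‖w‖ : ℝ) : ℂ)⁻¹ * w‖ = (1 - ‖w‖)⁻¹ * ‖w‖ := by
          rw [norm_mul, norm_inv, Complex.norm_real, Real.norm_eq_abs, abs_of_pos hpos]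
        rw [h1]
        have h2 : (1 + (1 - ‖w‖)⁻¹ * ‖w‖ : ℝ) = (1 - ‖w‖)⁻¹ := by
          field_simp; ring
        rw [h2, Complex.ofReal_inv, inv_inv, ← mul_assoc, mul_inv_cancel₀ hc, one_mul]
  rw [← himg]
  exact h0.image f hf.continuousOn

section
variable {X : Type u} [TopologicalSpace X] {D : DilationSurface X}

/-- the punctured cone ball is connected -/
theorem isConnected_coneBall {p : X} {k : ℕ} {ψ : OpenPartialHomeomorph X ℂ}
    (h : D.IsConeBall p k ψ) : IsConnected (ψ.source \ {p}) := by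
  have himg : ψ.symm '' (B1 \ {0}) = ψ.source \ {p} := by
    ext x
    constructor
    · rintro ⟨w, ⟨hw, hw0⟩, rfl⟩
      have hwt : w ∈ ψ.target := by rw [h.tgt]; exact hw
      refine ⟨ψ.map_target hwt, fun hp => hw0 ?_⟩
      have hp' : ψ.symm w = p := hp
      rw [mem_singleton_iff, ← ψ.right_inv hwt, hp', h.zero]
    · rintro ⟨hx, hxp⟩
      refine ⟨ψ x, ⟨?_, fun h0 => hxp ?_⟩, ψ.left_inv hx⟩
      · rw [← h.tgt]; exact ψ.map_source hx
      · have h0' : ψ x = 0 := h0
        rw [mem_singleton_iff, ← ψ.left_inv hx, h0', ← h.zero, ψ.left_inv h.src]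
  rw [← himg]
  apply isConnected_punctured.image
  intro w hw
  apply ContinuousAt.continuousWithinAt
  apply ψ.symm.continuousAt
  simpa [h.tgt] using hw.1

end

theorem sb_CONN : SB_CONN.{u} := by
  intro X _ _ _ _ D
  have hopen : IsOpen (D.cone)ᶜ := D.cone_finite.isClosed.isOpen_compl
  refine ⟨⟨?_, ?_⟩, hopen⟩
  · obtain ⟨x⟩ := (inferInstance : Nonempty X)
    obtain ⟨y, hy, -⟩ := exists_seq D x
    exact ⟨y 0, hy 0⟩
  · intro U V hU hV hcov hSU hSV
    by_contra hno
    rw [not_nonempty_iff_eq_empty] at hno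
    have hdisj : ∀ y, y ∉ D.cone → y ∈ U → y ∈ V → False := by
      intro y hy hyU hyV
      have : y ∈ (D.cone)ᶜ ∩ (U ∩ V) := ⟨hy, hyU, hyV⟩
      rw [hno] at this
      exact this
    let ext (W : Set X) : Set X := {x | (x ∉ D.cone ∧ x ∈ W) ∨ (x ∈ D.cone ∧ ∀ᶠ y in 𝓝[≠] x, y ∈ W)}
    have hext_open : ∀ W, IsOpen W → IsOpen (ext W) := by
      intro W hW
      rw [isOpen_iff_mem_nhds]
      rintro x (⟨hx, hxW⟩ | ⟨hx, hxW⟩)
      · filter_upwards [hopen.mem_nhds hx, hW.mem_nhds hxW] with y hy hyW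
        exact Or.inl ⟨hy, hyW⟩
      · obtain ⟨k, ψ, hk, hs, h0, hm⟩ := D.cone_model x hx
        have h1 := eventually_nhdsWithin_iff.1 hxW
        filter_upwards [h1, ψ.open_source.mem_nhds hs] with y hy hys
        by_cases hyx : y = x
        · subst hyx; exact Or.inr ⟨hx, hxW⟩
        · exact Or.inl ⟨(hm y hys hyx).1, hy hyx⟩
    have hcover : ∀ x, x ∈ ext U ∨ x ∈ ext V := by
      intro x
      by_cases hx : x ∈ D.cone
      · obtain ⟨k, ψ, hψ, -⟩ := sb_CB X D x hx univ univ_mem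
        have hc := isConnected_coneBall hψ
        have hsub : ψ.source \ {x} ⊆ U ∪ V := by
          intro y hy
          exact hcov (hψ.model y hy.1 hy.2).1
        have hev : ∀ W, ψ.source \ {x} ⊆ W → ∀ᶠ y in 𝓝[≠] x, y ∈ W := by
          intro W hW
          rw [eventually_nhdsWithin_iff]
          filter_upwards [ψ.open_source.mem_nhds hψ.src] with y hy hyx
          exact hW ⟨hy, hyx⟩
        by_cases hUn : ((ψ.source \ {x}) ∩ U).Nonempty
        · left
          right
          refine ⟨hx, hev U ?_⟩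
          intro y hy
          by_contra hyU
          have hyV : y ∈ V := (hsub hy).resolve_left hyU
          obtain ⟨z, hz1, hz2, hz3⟩ := hc.isPreconnected U V hU hV hsub hUn ⟨y, hy, hyV⟩
          exact hdisj z (hψ.model z hz1.1 hz1.2).1 hz2 hz3
        · right
          right
          refine ⟨hx, hev V ?_⟩
          intro y hy
          refine (hsub hy).resolve_left fun hyU => hUn ⟨y, hy, hyU⟩
      · rcases hcov hx with h | h
        · exact Or.inl (Or.inl ⟨hx, h⟩)
        · exact Or.inr (Or.inl ⟨hx, h⟩)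
    have hne : ∀ W, ((D.cone)ᶜ ∩ W).Nonempty → (ext W).Nonempty := by
      rintro W ⟨x, hx, hxW⟩
      exact ⟨x, Or.inl ⟨hx, hxW⟩⟩
    have hpre := (isPreconnected_univ (α := X)) (ext U) (ext V) (hext_open U hU) (hext_open V hV)
      (fun x _ => hcover x) (by simpa using hne U hSU) (by simpa using hne V hSV)
    obtain ⟨x, -, hxU, hxV⟩ := hpre
    rcases hxU with ⟨hx, hxU⟩ | ⟨hx, hxU⟩
    · rcases hxV with ⟨-, hxV⟩ | ⟨hx', -⟩
      · exact hdisj x hx hxU hxV
      · exact hx hx'
    · rcases hxV with ⟨hx', -⟩ | ⟨-, hxV⟩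
      · exact hx' hx
      · obtain ⟨y, hy, hyx⟩ := exists_seq D x
        have hyx' : Tendsto y atTop (𝓝[≠] x) := by
          rw [tendsto_nhdsWithin_iff]
          refine ⟨hyx, Eventually.of_forall fun n h => hy n ?_⟩
          have h' : y n = x := h
          rw [h']; exact hx
        obtain ⟨n, hn1, hn2⟩ := ((hyx'.eventually hxU).and (hyx'.eventually hxV)).exists
        exact hdisj _ (hy n) hn1 hn2

end Pool.Agent.Helper73.Dil
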