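import Pool.Agent.Helper73.Dil.Rat

open Topology Set Filter MeasureTheory Metric

namespace Pool.Agent.Helper73.Dil

universe u

open DilationSurface

section
variable {X : Type u} [TopologicalSpace X] {D : DilationSurface X}

theorem ref_mem_ch (R : D.Ref) {x : X} (hx : x ∉ D.cone) : x ∈ (R.ch x).source := by
  have h : {n | x ∈ (R.B n).source}.Nonempty := R.cov x hx
  exact Nat.sInf_mem h

theorem ref_ch_isBall (R : D.Ref) (x : X) : D.IsBall (R.ch x) := R.ball _

theorem ball_symm_mem {b : OpenPartialHomeomorph X ℂ} (hb : D.IsBall b) {z : ℂ} (hz : z ∈ B1) :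
    b.symm z ∈ b.source := b.map_target (by rw [hb.2]; exact hz)

theorem ball_symm_reg {b : OpenPartialHomeomorph X ℂ} (hb : D.IsBall b) {z : ℂ} (hz : z ∈ B1) :
    b.symm z ∉ D.cone := hb.1.1 _ (ball_symm_mem hb hz)

theorem ball_right_inv {b : OpenPartialHomeomorph X ℂ} (hb : D.IsBall b) {z : ℂ} (hz : z ∈ B1) :
    b (b.symm z) = z := b.right_inv (by rw [hb.2]; exact hz)

/-- change of chart formula for inverse charts -/
theorem symm_eventually {e e' : OpenPartialHomeomorph X ℂ} {x : X} (hx : x ∈ e.source)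
    (hx' : x ∈ e'.source) {a : ℝ} {β : ℂ} (h : ∀ᶠ y in 𝓝 x, e' y = a * e y + β) :
    ∀ᶠ z in 𝓝 (e x), e.symm z = e'.symm (a * z + β) := by
  have hc : Tendsto e.symm (𝓝 (e x)) (𝓝 x) := by
    have := (e.symm.continuousAt (x := e x) (by simpa using e.map_source hx)).tendsto
    rwa [e.left_inv hx] at this
  have h2 : ∀ᶠ z in 𝓝 (e x), z ∈ e.target := e.open_target.mem_nhds (e.map_source hx)
  filter_upwards [hc.eventually h, h2, hc.eventually (e'.open_source.mem_nhds hx')]
    with z h1 h2 h3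
  rw [e.right_inv h2] at h1
  rw [← h1, e'.left_inv h3]

theorem hasFDerivAt_chart (F : D.Twist) {e e' : OpenPartialHomeomorph X ℂ} (he : D.IsChart e)
    (he' : D.IsChart e') {x : X} (hx : x ∈ e.source) (hx' : x ∈ e'.source) (v : ℂ) :
    fderiv ℝ (F.F e ∘ e.symm) (e x) v =
      (rat e e' x : ℂ) * fderiv ℝ (F.F e' ∘ e'.symm) (e' x) v := by
  obtain ⟨r, hr⟩ := isChart_dil he he' hx hx'
  obtain ⟨hne, β, h⟩ := rat_spec hr
  set a := rat e e' x with ha
  have h1 := symm_eventually hx hx' h
  have htr := F.trans e e' he he' x hx hx'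
  have hc : Tendsto e.symm (𝓝 (e x)) (𝓝 x) := by
    have := (e.symm.continuousAt (x := e x) (by simpa using e.map_source hx)).tendsto
    rwa [e.left_inv hx] at this
  have heq : (F.F e ∘ e.symm) =ᶠ[𝓝 (e x)]
      fun z => (F.F e' ∘ e'.symm) (a * z + β) - (F.F e' x - F.F e x) := by
    filter_upwards [h1, hc.eventually htr] with z hz hz2
    simp only [Function.comp]
    rw [← hz, ← hz2]
    ring
  have hx1 : (a : ℂ) * e x + β = e' x := h.self_of_nhds.symm
  have hd : DifferentiableAt ℝ (F.F e' ∘ e'.symm) (a * e x + β) := by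
    rw [hx1]
    exact (F.smooth e' he' x hx').differentiableAt (by simp)
  have hin : HasFDerivAt (fun z : ℂ => (a : ℂ) * z + β)
      (a • (ContinuousLinearMap.id ℝ ℂ)) (e x) := by
    have := ((hasFDerivAt_id (𝕜 := ℝ) (e x)).const_smul a).add_const β
    have h4 : (fun z : ℂ => (a : ℂ) * z + β) = fun z : ℂ => (a • id) z + β := by
      funext z; simp
    rw [h4]
    exact this
  have hcomp := (hd.hasFDerivAt.comp (e x) hin).sub_const (F.F e' x - F.F e x)
  have h3 : HasFDerivAt (F.F e ∘ e.symm)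
      ((fderiv ℝ (F.F e' ∘ e'.symm) (a * e x + β)).comp
        (a • (ContinuousLinearMap.id ℝ ℂ))) (e x) := by
    refine HasFDerivAt.congr_of_eventuallyEq ?_ heq
    simpa [Function.comp_def] using hcomp
  rw [h3.fderiv, hx1]
  simp

end

theorem sb_LOCG : SB_LOCG.{u} := by
  intro X _ D R F b hb z hz
  have hx : b.symm z ∈ b.source := ball_symm_mem hb hz
  have hreg := ball_symm_reg hb hz
  have hch := ref_mem_ch R hreg
  have h := fun v => hasFDerivAt_chart F hb.1 (ref_ch_isBall R (b.symm z)).1 hx hch v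
  rw [ball_right_inv hb hz] at h
  exact ⟨(h 1).symm, (h Complex.I).symm⟩

end Pool.Agent.Helper73.Dil
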