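import Pool.Agent.Helper73.Dil.Defs

open Topology Set Filter MeasureTheory Metric
open scoped MatrixGroups Pointwise

namespace Pool.Agent.Helper73.Dil

/-- `Γ` is a lattice in the topological group `H`: it is discrete and the right action of `Γ` on
`H` has a fundamental domain of finite Haar measure. -/
def IsLatticeIn {H : Type*} [Group H] [TopologicalSpace H] (Γ : Subgroup H) : Prop :=
  letI : MeasurableSpace H := borel H
  DiscreteTopology Γ ∧
  ∃ μ : Measure H, μ.IsHaarMeasure ∧ ∃ D : Set H, IsFundamentalDomain Γ.op D μ ∧ μ D < ⊤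

/-- The Veech group of a dilation surface, a subgroup of `PSL(2,ℝ)`. -/
def DilationSurface.PVeech {X : Type*} [TopologicalSpace X] (D : DilationSurface X) :
    Subgroup PSL(2, ℝ) :=
  D.VeechGroup.map (QuotientGroup.mk' (Subgroup.center G))

theorem lcG : LocallyCompactSpace G := by
  have : LocallyCompactSpace (Matrix (Fin 2) (Fin 2) ℝ) :=
    inferInstanceAs (LocallyCompactSpace (Fin 2 → Fin 2 → ℝ))
  exact (Matrix.SpecialLinearGroup.isClosedEmbedding_val
    (n := Fin 2) (R := ℝ)).locallyCompactSpace

theorem scG : SecondCountableTopology G := by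
  have : SecondCountableTopology (Matrix (Fin 2) (Fin 2) ℝ) :=
    inferInstanceAs (SecondCountableTopology (Fin 2 → Fin 2 → ℝ))
  exact (Matrix.SpecialLinearGroup.isClosedEmbedding_val
    (n := Fin 2) (R := ℝ)).isEmbedding.secondCountableTopology

theorem t2G : T2Space G :=
  (Matrix.SpecialLinearGroup.isClosedEmbedding_val (n := Fin 2) (R := ℝ)).isEmbedding.t2Space

theorem mem_center_iff' (g : G) : g ∈ Subgroup.center G ↔ g = 1 ∨ g = -1 := by
  rw [Matrix.SpecialLinearGroup.mem_center_iff]
  constructor
  · rintro ⟨r, hr, h⟩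
    simp only [Fintype.card_fin] at hr
    have hr' : (r - 1) * (r + 1) = 0 := by nlinarith
    rcases mul_eq_zero.1 hr' with h1 | h1
    · left
      have : r = 1 := by linarith
      rw [this] at h
      ext i j
      rw [← h]
      fin_cases i <;> fin_cases j <;> simp [Matrix.scalar_apply]
    · right
      have : r = -1 := by linarith
      rw [this] at h
      ext i j
      rw [← h]
      fin_cases i <;> fin_cases j <;> simp [Matrix.scalar_apply]
  · rintro (rfl | rfl)
    · exact ⟨1, by simp, by ext i j; fin_cases i <;> fin_cases j <;> simp [Matrix.scalar_apply]⟩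
    · exact ⟨-1, by simp, by ext i j; fin_cases i <;> fin_cases j <;> simp [Matrix.scalar_apply]⟩

/-- The projection. -/
abbrev pr : G →* PSL(2, ℝ) := QuotientGroup.mk' (Subgroup.center G)

theorem pr_eq_iff (g h : G) : pr g = pr h ↔ h = g ∨ h = -g := by
  have h1 : pr g = pr h ↔ g⁻¹ * h ∈ Subgroup.center G := QuotientGroup.eq
  rw [h1, mem_center_iff', inv_mul_eq_iff_eq_mul, inv_mul_eq_iff_eq_mul]
  simp

theorem pr_neg (g : G) : pr (-g) = pr g := ((pr_eq_iff _ _).2 (Or.inr rfl)).symm

theorem entry_continuous (i j : Fin 2) : Continuous fun g : G => g.1 i j :=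
  (continuous_apply_apply i j).comp continuous_subtype_val

theorem isClosed_center : IsClosed (Subgroup.center G : Set G) := by
  have := t2G
  have h : (Subgroup.center G : Set G) = {1, -1} := by
    ext g
    exact mem_center_iff' g
  rw [h]
  exact (Set.finite_singleton _).insert _ |>.isClosed

theorem neg_continuous : Continuous fun g : G => -g := by
  have h : (fun g : G => -g) = fun g => (-1 : G) * g := by
    funext g; simp
  rw [h]
  exact continuous_const.mul continuous_id

theorem pr_isClosedMap : IsClosedMap pr := by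
  intro C hC
  have hq : IsQuotientMap (pr : G → PSL(2, ℝ)) := QuotientGroup.isQuotientMap_mk _
  rw [← hq.isClosed_preimage]
  have h : pr ⁻¹' (pr '' C) = C ∪ (fun g : G => -g) ⁻¹' C := by
    ext g
    simp only [mem_preimage, mem_image, mem_union]
    constructor
    · rintro ⟨c, hc, h⟩
      rcases (pr_eq_iff _ _).1 h with h | h
      · left; rw [h]; exact hc
      · right; rw [h]; simpa using hc
    · rintro (h | h)
      · exact ⟨g, h, rfl⟩
      · exact ⟨-g, h, pr_neg g⟩
  rw [h]
  exact hC.union (hC.preimage neg_continuous)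

theorem pr_proper : IsProperMap pr := by
  rw [isProperMap_iff_isClosedMap_and_compact_fibers]
  refine ⟨QuotientGroup.continuous_mk, pr_isClosedMap, fun y => ?_⟩
  obtain ⟨g, rfl⟩ := QuotientGroup.mk'_surjective _ y
  have h : pr ⁻¹' {pr g} = {g, -g} := by
    ext h
    simp only [mem_preimage, mem_singleton_iff, mem_insert_iff]
    rw [eq_comm, pr_eq_iff]
  rw [h]
  exact (Set.toFinite _).isCompact

/-- The half of `G`. -/
def halfG : Set G := {g | 0 < g.1 0 0 ∨ (g.1 0 0 = 0 ∧ 0 < g.1 0 1)}

theorem halfG_neg {g : G} (h : g ∈ halfG) : -g ∉ halfG := by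
  rintro (h' | h') <;> rcases h with h | h <;>
    simp only [Matrix.SpecialLinearGroup.coe_neg, Matrix.neg_apply] at h' <;> grind

theorem halfG_cover (g : G) : g ∈ halfG ∨ -g ∈ halfG := by
  have hd := g.2
  rw [Matrix.det_fin_two] at hd
  simp only [halfG, mem_setOf_eq, Matrix.SpecialLinearGroup.coe_neg, Matrix.neg_apply]
  rcases lt_trichotomy (g.1 0 0) 0 with h | h | h
  · right; left; linarith
  · rcases lt_trichotomy (g.1 0 1) 0 with h' | h' | h'
    · right; right; constructor
      · rw [h]; simp
      · linarith
    · exfalso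
      rw [h, h'] at hd
      simp at hd
    · left; right; exact ⟨h, h'⟩
  · left; left; exact h

theorem halfG_meas : MeasurableSet halfG := by
  have h0 := entry_continuous 0 0
  have h1 := entry_continuous 0 1
  exact (isOpen_lt continuous_const h0).measurableSet.union
    ((isClosed_eq h0 continuous_const).measurableSet.inter
      (isOpen_lt continuous_const h1).measurableSet)

theorem isLattice_of_isLatticeIn {V : Subgroup G} (hV : (-1 : G) ∈ V)
    (h : IsLatticeIn (V.map pr)) : IsLattice V := by
  have := t2G
  have := scG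
  have := lcG
  letI mP : MeasurableSpace PSL(2, ℝ) := borel _
  haveI bP : BorelSpace PSL(2, ℝ) := ⟨rfl⟩
  obtain ⟨hdisc, μ', hμ', D', hD', hfin⟩ := h
  have hcl := isClosed_center
  have : IsClosed (Subgroup.center G : Set G) := hcl
  have : LocallyCompactSpace PSL(2, ℝ) := inferInstanceAs (LocallyCompactSpace (G ⧸ _))
  have : SecondCountableTopology PSL(2, ℝ) := inferInstanceAs (SecondCountableTopology (G ⧸ _))
  have : T3Space PSL(2, ℝ) := inferInstanceAs (T3Space (G ⧸ _))
  have : IsTopologicalGroup PSL(2, ℝ) := inferInstanceAs (IsTopologicalGroup (G ⧸ _))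
  have hcont : Continuous pr := QuotientGroup.continuous_mk
  have hmeas : Measurable pr := hcont.measurable
  have hneg : ∀ g ∈ V, -g ∈ V := fun g hg => by
    have := V.mul_mem hV hg
    simpa using this
  constructor
  · -- discreteness
    rw [discreteTopology_iff_isOpen_singleton_one]
    rw [discreteTopology_iff_isOpen_singleton_one] at hdisc
    obtain ⟨U, hU, hU'⟩ := isOpen_induced_iff.1 hdisc
    rw [isOpen_induced_iff]
    refine ⟨pr ⁻¹' U ∩ {g | 0 < g.1 0 0}, (hU.preimage hcont).inter
      (isOpen_lt continuous_const (entry_continuous 0 0)), ?_⟩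
    ext v
    simp only [mem_preimage, mem_inter_iff, mem_setOf_eq, mem_singleton_iff]
    constructor
    · rintro ⟨h1, h2⟩
      have h3 : (⟨pr v.1, Subgroup.mem_map_of_mem _ v.2⟩ : V.map pr) ∈ (Subtype.val ⁻¹' U) := h1
      rw [hU'] at h3
      have h4 : pr v.1 = pr 1 := by
        have := congrArg Subtype.val h3
        simpa using this
      rcases (pr_eq_iff _ _).1 h4 with h5 | h5
      · exact Subtype.ext h5.symm
      · exfalso
        have h6 : v.1 = -1 := by rw [h5]; simp
        rw [h6] at h2
        simp at h2
        linarith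
    · rintro rfl
      refine ⟨?_, by simp⟩
      have h3 : (1 : V.map pr) ∈ (Subtype.val ⁻¹' U) := by rw [hU']; rfl
      simpa using h3
  · -- fundamental domain
    let μ : Measure G := Measure.haar
    have hμm : (μ.map pr).IsHaarMeasure := by
      refine Measure.isHaarMeasure_map μ pr hcont (QuotientGroup.mk'_surjective _) ?_
      exact (isProperMap_iff_tendsto_cocompact.1 pr_proper).2
    obtain ⟨c, hc⟩ : ∃ c : NNReal, μ.map pr = c • μ' := ⟨_, Measure.isMulLeftInvariant_eq_smul _ _⟩
    have hac : μ.map pr ≪ μ' := by
      rw [hc]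
      exact Measure.smul_absolutelyContinuous
    have hq : Measure.QuasiMeasurePreserving pr μ μ' := ⟨hmeas, hac⟩
    refine ⟨μ, inferInstance, pr ⁻¹' D' ∩ halfG, ?_, ?_⟩
    · refine ⟨?_, ?_, ?_⟩
      · exact (hD'.nullMeasurableSet.preimage hq).inter halfG_meas.nullMeasurableSet
      · have h1 := hD'.ae_covers
        filter_upwards [hq.ae h1] with x hx
        obtain ⟨⟨g', hg'⟩, hx⟩ := hx
        obtain ⟨v, hv, hv'⟩ := Subgroup.mem_map.1 (Subgroup.mem_op.1 hg')
        have hx' : pr (x * v) ∈ D' := by
          have : (⟨g', hg'⟩ : (V.map pr).op) • pr x = pr x * g'.unop := rfl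
          rw [this, ← hv'] at hx
          simpa using hx
        rcases halfG_cover (x * v) with h | h
        · exact ⟨⟨MulOpposite.op v, Subgroup.mem_op.2 hv⟩, hx', h⟩
        · refine ⟨⟨MulOpposite.op (-v), Subgroup.mem_op.2 (hneg v hv)⟩, ?_, ?_⟩
          · change pr (x * (-v)) ∈ D'
            rw [mul_neg, pr_neg]
            exact hx'
          · change x * (-v) ∈ halfG
            rw [mul_neg]
            exact h
      · intro g h hgh
        obtain ⟨g, hg⟩ := g
        obtain ⟨h, hh⟩ := h
        have hg' : g.unop ∈ V := Subgroup.mem_op.1 hg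
        have hh' : h.unop ∈ V := Subgroup.mem_op.1 hh
        by_cases he : pr g.unop = pr h.unop
        · -- disjoint
          have hh2 : h.unop = -g.unop := by
            rcases (pr_eq_iff _ _).1 he with h1 | h1
            · exfalso
              apply hgh
              apply Subtype.ext
              exact MulOpposite.unop_injective h1.symm
            · exact h1
          apply Disjoint.aedisjoint
          rw [Set.disjoint_left]
          rintro x ⟨a, ha, rfl⟩ ⟨b, hb, hab⟩
          have h1 : b * h.unop = a * g.unop := hab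
          rw [hh2] at h1
          have h2 : -b = a := by
            have : (-b) * g.unop = a * g.unop := by rw [← h1]; simp
            exact mul_right_cancel this
          apply halfG_neg hb.2
          rw [h2]
          exact ha.2
        · have hne : (⟨MulOpposite.op (pr g.unop), Subgroup.mem_op.2
              (Subgroup.mem_map_of_mem _ hg')⟩ : (V.map pr).op) ≠
              ⟨MulOpposite.op (pr h.unop), Subgroup.mem_op.2
              (Subgroup.mem_map_of_mem _ hh')⟩ := by
            intro h1
            apply he
            exact MulOpposite.op_injective (congrArg Subtype.val h1)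
          have h2 := hD'.aedisjoint hne
          have h3 : μ (pr ⁻¹' ((⟨MulOpposite.op (pr g.unop), Subgroup.mem_op.2
              (Subgroup.mem_map_of_mem _ hg')⟩ : (V.map pr).op) • D' ∩
              (⟨MulOpposite.op (pr h.unop), Subgroup.mem_op.2
              (Subgroup.mem_map_of_mem _ hh')⟩ : (V.map pr).op) • D')) = 0 :=
            hq.preimage_null h2
          refine measure_mono_null ?_ h3
          rintro x ⟨⟨a, ha, rfl⟩, ⟨b, hb, hab⟩⟩
          refine ⟨⟨pr a, ha.1, ?_⟩, ⟨pr b, hb.1, ?_⟩⟩
          · change pr a * pr g.unop = pr (a * g.unop)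
            simp
          · have h1 : b * h.unop = a * g.unop := hab
            change pr b * pr h.unop = pr (a * g.unop)
            rw [← h1]
            simp
    · calc μ (pr ⁻¹' D' ∩ halfG) ≤ μ (pr ⁻¹' D') := measure_mono inter_subset_left
        _ ≤ μ.map pr D' := Measure.le_map_apply hmeas.aemeasurable _
        _ = c * μ' D' := by rw [hc]; rfl
        _ < ⊤ := ENNReal.mul_lt_top ENNReal.coe_lt_top hfin

theorem neg_one_mem {X : Type*} [TopologicalSpace X] (D : DilationSurface X) :
    (-1 : G) ∈ D.VeechGroup := by
  refine ⟨Homeomorph.refl X, fun x => Iff.rfl, fun x hx e he hxe e' he' hxe' => ?_⟩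
  obtain ⟨r, a, b, ha, -, h⟩ := D.compat e he e' he' x hxe hxe'
  refine ⟨-a, b, neg_ne_zero.2 ha, h.mono fun y hy => ?_⟩
  have h1 : lin (-1) (e y) = - e y := by
    apply Complex.ext <;> simp [lin]
  rw [h1]
  change e' y = _
  rw [hy]
  push_cast
  ring

end Pool.Agent.Helper73.Dil
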