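import Pool.Agent.Helper73.Dil.RefEx

open Topology Set Filter MeasureTheory Metric

namespace Pool.Agent.Helper73.Dil

universe u

open DilationSurface

section
variable {X : Type u} [TopologicalSpace X] {D : DilationSurface X}

open Classical in
/-- extension by zero of a plane function supported in the unit ball to the surface -/
noncomputable def extBall (b : OpenPartialHomeomorph X ℂ) (a : ℂ → ℂ) (x : X) : ℂ :=
  if x ∈ b.source then a (b x) else 0

/-- the compact set supporting `extBall b a` -/
def suppBall (b : OpenPartialHomeomorph X ℂ) (a : ℂ → ℂ) : Set X := b.symm '' tsupport a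

theorem suppBall_compact {b : OpenPartialHomeomorph X ℂ} (hb : D.IsBall b) {a : ℂ → ℂ}
    (ha : PTest a) : IsCompact (suppBall b a) := by
  refine IsCompact.image_of_continuousOn ha.2.1 ?_
  refine b.symm.continuousOn.mono ?_
  intro z hz
  have := ha.2.2 hz
  simpa [hb.2] using this

theorem suppBall_subset {b : OpenPartialHomeomorph X ℂ} (hb : D.IsBall b) {a : ℂ → ℂ}
    (ha : PTest a) : suppBall b a ⊆ b.source := by
  rintro x ⟨z, hz, rfl⟩
  exact ball_symm_mem hb (ha.2.2 hz)

theorem extBall_zero {b : OpenPartialHomeomorph X ℂ} {a : ℂ → ℂ} {x : X}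
    (hx : x ∉ suppBall b a) : extBall b a x = 0 := by
  rw [extBall]
  split_ifs with h
  · by_contra hne
    apply hx
    exact ⟨b x, subset_tsupport a hne, b.left_inv h⟩
  · rfl

theorem extBall_apply {b : OpenPartialHomeomorph X ℂ} {a : ℂ → ℂ} {x : X} (hx : x ∈ b.source) :
    extBall b a x = a (b x) := by rw [extBall, if_pos hx]

theorem extBall_symm {b : OpenPartialHomeomorph X ℂ} (hb : D.IsBall b) {a : ℂ → ℂ} {z : ℂ}
    (hz : z ∈ B1) : extBall b a (b.symm z) = a z := by
  rw [extBall_apply (ball_symm_mem hb hz), ball_right_inv hb hz]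

theorem isTest_extBall [T2Space X] {b : OpenPartialHomeomorph X ℂ} (hb : D.IsBall b) {a : ℂ → ℂ}
    (ha : PTest a) : D.IsTest (extBall b a) := by
  have hcl : IsClosed (suppBall b a) := (suppBall_compact hb ha).isClosed
  have hzero : ∀ x, x ∉ suppBall b a → ∀ᶠ y in 𝓝 x, extBall b a y = 0 := by
    intro x hx
    filter_upwards [hcl.isOpen_compl.mem_nhds hx] with y hy
    exact extBall_zero hy
  constructor
  · intro e he x hx
    have hc : Tendsto e.symm (𝓝 (e x)) (𝓝 x) := by
      have := (e.symm.continuousAt (x := e x) (by simpa using e.map_source hx)).tendsto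
      rwa [e.left_inv hx] at this
    by_cases hxb : x ∈ b.source
    · obtain ⟨r, hr⟩ := isChart_dil he hb.1 hx hxb
      obtain ⟨-, β, h⟩ := rat_spec hr
      have heq : (extBall b a ∘ e.symm) =ᶠ[𝓝 (e x)] fun z => a (rat e b x * z + β) := by
        filter_upwards [symm_eventually hx hxb h, hc.eventually (b.open_source.mem_nhds hxb),
          hc.eventually h, e.open_target.mem_nhds (e.map_source hx)] with z h1 h2 h3 h4
        simp only [Function.comp]
        rw [extBall_apply h2, h3, e.right_inv h4]
      refine ContDiffAt.congr_of_eventuallyEq ?_ heq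
      apply ContDiff.contDiffAt
      apply ha.1.comp
      exact (contDiff_const.mul contDiff_id).add contDiff_const
    · have hxs : x ∉ suppBall b a := fun h => hxb (suppBall_subset hb ha h)
      have heq : (extBall b a ∘ e.symm) =ᶠ[𝓝 (e x)] fun _ => (0 : ℂ) :=
        hc.eventually (hzero x hxs)
      exact contDiffAt_const.congr_of_eventuallyEq heq
  · intro p hp
    have hps : p ∉ suppBall b a := fun h => hb.1.1 p (suppBall_subset hb ha h) hp
    filter_upwards [hzero p hps] with y hy
    rw [hy, extBall_zero hps]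

theorem isTest_const (c : ℂ) : D.IsTest fun _ => c :=
  ⟨fun _ _ _ _ => contDiffAt_const, fun _ _ => Eventually.of_forall fun _ => rfl⟩

theorem isTest_mul {f g : X → ℂ} (hf : D.IsTest f) (hg : D.IsTest g) :
    D.IsTest fun x => f x * g x := by
  refine ⟨fun e he x hx => (hf.1 e he x hx).mul (hg.1 e he x hx), fun p hp => ?_⟩
  filter_upwards [hf.2 p hp, hg.2 p hp] with y h1 h2
  rw [h1, h2]

theorem isTest_add {f g : X → ℂ} (hf : D.IsTest f) (hg : D.IsTest g) :
    D.IsTest fun x => f x + g x := by
  refine ⟨fun e he x hx => (hf.1 e he x hx).add (hg.1 e he x hx), fun p hp => ?_⟩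
  filter_upwards [hf.2 p hp, hg.2 p hp] with y h1 h2
  rw [h1, h2]

theorem isTest_sub {f g : X → ℂ} (hf : D.IsTest f) (hg : D.IsTest g) :
    D.IsTest fun x => f x - g x := by
  refine ⟨fun e he x hx => (hf.1 e he x hx).sub (hg.1 e he x hx), fun p hp => ?_⟩
  filter_upwards [hf.2 p hp, hg.2 p hp] with y h1 h2
  rw [h1, h2]

theorem isTest_prod {ι : Type*} (s : Finset ι) {f : ι → X → ℂ} (hf : ∀ i, D.IsTest (f i)) :
    D.IsTest fun x => ∏ i ∈ s, f i x := by
  classical
  induction s using Finset.induction_on with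
  | empty => simpa using isTest_const 1
  | insert i s hi ih =>
    simp only [Finset.prod_insert hi]
    exact isTest_mul (hf i) ih

/-- the standard plane bump function: one on the ball of radius `1/2`, supported in radius `3/4` -/
noncomputable def stdBump : ContDiffBump (0 : ℂ) where
  rIn := 1 / 2
  rOut := 3 / 4
  rIn_pos := by norm_num
  rIn_lt_rOut := by norm_num

theorem ptest_stdBump : PTest (fun z => ((stdBump z : ℝ) : ℂ)) := by
  have hsupp : tsupport (fun z => ((stdBump z : ℝ) : ℂ)) ⊆ tsupport stdBump := by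
    apply closure_mono
    intro z hz
    rw [Function.mem_support] at hz ⊢
    intro h; apply hz; rw [h]; simp
  refine ⟨Complex.ofRealCLM.contDiff.comp stdBump.contDiff, ?_, ?_⟩
  · exact stdBump.hasCompactSupport.comp_left (g := fun r : ℝ => (r : ℂ)) (by simp)
  · intro z hz
    have := hsupp hz
    rw [stdBump.tsupport_eq] at this
    rw [B1]
    exact closedBall_subset_ball (by norm_num [stdBump]) this

theorem stdBump_one {z : ℂ} (hz : z ∈ Bh) : ((stdBump z : ℝ) : ℂ) = 1 := by
  have : stdBump z = 1 := stdBump.one_of_mem_closedBall (ball_subset_closedBall hz)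
  rw [this]; simp

end

theorem sb_PU : SB_PU.{u} := by
  intro X _ _ _ D K hK hKc
  choose b hb1 hb2 hb3 _ using fun x : K => sb_BALL X D x.1 (hKc x.2) univ univ_mem
  obtain ⟨t, ht⟩ := hK.elim_nhds_subcover' (fun x hx => (b ⟨x, hx⟩).source ∩ (b ⟨x, hx⟩) ⁻¹' Bh)
    (fun x hx => by
      refine ((b ⟨x, hx⟩).isOpen_inter_preimage isOpen_ball).mem_nhds ⟨hb2 ⟨x, hx⟩, ?_⟩
      rw [mem_preimage, hb3 ⟨x, hx⟩]
      exact mem_ball_self (by norm_num))
  let n := t.card
  let y : Fin n → K := fun i => (t.equivFin.symm i).1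
  let β : Fin n → X → ℂ := fun i => extBall (b (y i)) (fun z => ((stdBump z : ℝ) : ℂ))
  have hβ : ∀ i, D.IsTest (β i) := fun i => isTest_extBall (hb1 _) ptest_stdBump
  refine ⟨n, fun i => b (y i), fun i x => β i x * ∏ j ∈ Finset.univ with j < i, (1 - β j x),
    fun i => ⟨hb1 _, ?_, suppBall (b (y i)) (fun z => ((stdBump z : ℝ) : ℂ)),
      suppBall_compact (hb1 _) ptest_stdBump, suppBall_subset (hb1 _) ptest_stdBump, ?_⟩,
    ⋃ i, ((b (y i)).source ∩ (b (y i)) ⁻¹' Bh), ?_, ?_, ?_⟩
  · apply isTest_mul (hβ i)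
    apply isTest_prod
    intro j
    exact isTest_sub (isTest_const 1) (hβ j)
  · intro x hx
    have : β i x = 0 := extBall_zero hx
    beta_reduce
    rw [this, zero_mul]
  · exact isOpen_iUnion fun i => (b (y i)).isOpen_inter_preimage isOpen_ball
  · intro x hx
    have := ht hx
    rw [mem_iUnion₂] at this
    obtain ⟨w, hw, hxw⟩ := this
    rw [mem_iUnion]
    refine ⟨t.equivFin ⟨w, hw⟩, ?_⟩
    have hy : y (t.equivFin ⟨w, hw⟩) = w := by simp [y]
    rw [hy]
    exact hxw
  · intro x hx
    have h1 := Finset.prod_one_sub_ordered (Finset.univ : Finset (Fin n)) (fun i => β i x)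
    have h2 : ∏ i : Fin n, (1 - β i x) = 0 := by
      rw [mem_iUnion] at hx
      obtain ⟨i, hi1, hi2⟩ := hx
      apply Finset.prod_eq_zero (Finset.mem_univ i)
      have : β i x = 1 := by
        simp only [β]
        rw [extBall_apply hi1]
        exact stdBump_one hi2
      rw [this, sub_self]
    rw [h2] at h1
    exact (sub_eq_zero.1 h1.symm).symm

end Pool.Agent.Helper73.Dil
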