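import Pool.Agent.Helper73.Dil.Conn

open Topology Set Filter MeasureTheory Metric

namespace Pool.Agent.Helper73.Dil

universe u

open DilationSurface

section
variable {X : Type u} [TopologicalSpace X] [CompactSpace X] [T2Space X]

/-- for a cone point, a decreasing sequence of open neighbourhoods shrinking to it -/
theorem exists_shrink (D : DilationSurface X) (p : X) (hp : p ∈ D.cone) :
    ∃ N : ℕ → Set X, (∀ n, IsOpen (N n)) ∧ (∀ n, p ∈ N n) ∧ ∀ x, x ≠ p → ∃ n, x ∉ N n := by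
  obtain ⟨k, ψ, hψ, -⟩ := sb_CB X D p hp univ univ_mem
  refine ⟨fun n => ψ.source ∩ ψ ⁻¹' ball 0 (1 / (n + 1)), fun n => ?_, fun n => ?_, fun x hx => ?_⟩
  · exact ψ.isOpen_inter_preimage isOpen_ball
  · refine ⟨hψ.src, ?_⟩
    rw [mem_preimage, hψ.zero]
    exact mem_ball_self (by positivity)
  · by_cases hxs : x ∈ ψ.source
    · have hne : ψ x ≠ 0 := by
        intro h
        apply hx
        rw [← hψ.zero] at h
        exact ψ.injOn hxs hψ.src h
      obtain ⟨n, hn⟩ := exists_nat_one_div_lt (norm_pos_iff.2 hne)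
      refine ⟨n, fun h => ?_⟩
      have h2 := h.2
      rw [mem_preimage, mem_ball_zero_iff] at h2
      linarith
    · exact ⟨0, fun h => hxs h.1⟩

theorem sigma_compact_compl (D : DilationSurface X) :
    ∃ K : ℕ → Set X, (∀ n, IsCompact (K n)) ∧ (∀ n, K n ⊆ (D.cone)ᶜ) ∧
      ∀ x, x ∉ D.cone → ∃ n, x ∈ K n := by
  have hN : ∀ p : X, ∃ N : ℕ → Set X, p ∈ D.cone → ((∀ n, IsOpen (N n)) ∧ (∀ n, p ∈ N n) ∧
      ∀ x, x ≠ p → ∃ n, x ∉ N n) := by
    intro p
    by_cases hp : p ∈ D.cone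
    · obtain ⟨N, hN⟩ := exists_shrink D p hp
      exact ⟨N, fun _ => hN⟩
    · exact ⟨fun _ => ∅, fun h => absurd h hp⟩
  choose N hN using hN
  refine ⟨fun m => (⋃ p ∈ D.cone, ⋂ n ∈ Finset.range (m + 1), N p n)ᶜ, fun m => ?_, fun m => ?_,
    fun x hx => ?_⟩
  · apply IsClosed.isCompact
    apply IsOpen.isClosed_compl
    apply isOpen_biUnion
    intro p hp
    apply isOpen_biInter_finset
    intro n _
    exact (hN p hp).1 n
  · intro x hx hxc
    apply hx
    rw [mem_iUnion₂]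
    refine ⟨x, hxc, ?_⟩
    rw [mem_iInter₂]
    intro n _
    exact (hN x hxc).2.1 n
  · have h1 : ∀ p : X, ∃ n, p ∈ D.cone → x ∉ N p n := by
      intro p
      by_cases hp : p ∈ D.cone
      · have hne : x ≠ p := fun h => hx (h ▸ hp)
        obtain ⟨n, hn⟩ := (hN p hp).2.2 x hne
        exact ⟨n, fun _ => hn⟩
      · exact ⟨0, fun h => absurd h hp⟩
    choose n hn using h1
    refine ⟨(D.cone_finite.toFinset).sup n, fun hmem => ?_⟩
    rw [mem_iUnion₂] at hmem
    obtain ⟨p, hp, hmem⟩ := hmem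
    rw [mem_iInter₂] at hmem
    apply hn p hp
    apply hmem
    rw [Finset.mem_range]
    exact Nat.lt_succ_of_le (Finset.le_sup (f := n) ((Set.Finite.mem_toFinset _).2 hp))

end

theorem sb_REF : SB_REF.{u} := by
  intro X _ _ _ D hex
  obtain ⟨x0, hx0⟩ := hex
  obtain ⟨K, hK1, hK2, hK3⟩ := sigma_compact_compl D
  have hb : ∀ x : X, ∃ b, x ∉ D.cone → D.IsBall b ∧ x ∈ b.source := by
    intro x
    by_cases hx : x ∈ D.cone
    · obtain ⟨b, hb, -⟩ := sb_BALL X D x0 hx0 univ univ_mem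
      exact ⟨b, fun h => absurd hx h⟩
    · obtain ⟨b, hb1, hb2, -⟩ := sb_BALL X D x hx univ univ_mem
      exact ⟨b, fun _ => ⟨hb1, hb2⟩⟩
  choose b hb using hb
  have hfin : ∀ n, ∃ s : Finset X, (∀ x ∈ s, x ∈ K n) ∧ K n ⊆ ⋃ x ∈ s, (b x).source := by
    intro n
    obtain ⟨s, hs1, hs2⟩ := (hK1 n).elim_nhds_subcover (fun x => (b x).source)
      (fun x hx => (b x).open_source.mem_nhds (hb x (hK2 n hx)).2)
    exact ⟨s, hs1, hs2⟩
  choose s hs1 hs2 using hfin
  have hcount : (⋃ n, (s n : Set X)).Countable := countable_iUnion fun n => (s n).countable_toSet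
  have hcount' : (insert x0 (⋃ n, (s n : Set X))).Countable := hcount.insert x0
  obtain ⟨f, hf⟩ := hcount'.exists_eq_range (insert_nonempty _ _)
  have hfreg : ∀ n, f n ∉ D.cone := by
    intro n
    have : f n ∈ insert x0 (⋃ n, (s n : Set X)) := by rw [hf]; exact mem_range_self n
    rcases this with h | h
    · rw [h]; exact hx0
    · rw [mem_iUnion] at h
      obtain ⟨m, hm⟩ := h
      exact hK2 m (hs1 m _ hm)
  refine ⟨⟨fun n => b (f n), fun n => (hb _ (hfreg n)).1, fun x hx => ?_⟩⟩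
  obtain ⟨n, hn⟩ := hK3 x hx
  have := hs2 n hn
  rw [mem_iUnion₂] at this
  obtain ⟨y, hy, hxy⟩ := this
  have hy' : y ∈ range f := by
    rw [← hf]; exact mem_insert_of_mem _ (mem_iUnion.2 ⟨n, hy⟩)
  obtain ⟨m, hm⟩ := hy'
  exact ⟨m, by rw [hm]; exact hxy⟩

end Pool.Agent.Helper73.Dil
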