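import Pool.Agent.Helper73.Dil.Main
import Pool.Agent.Helper73.Dil.PSL
import Pool.Agent.Helper73.Dil.Abs2
import Pool.Agent.Helper73.Dil.Conn
import Pool.Agent.Helper73.Dil.LocG
import Pool.Agent.Helper73.Dil.PU
import Pool.Agent.Helper73.Dil.RefEx
import Pool.Agent.Helper73.Dil.Rat
import Pool.Agent.Helper13.Dil.SOL
import Pool.Agent.Helper13.Dil.STOKES
import Pool.Agent.Helper17.Dil.CBB
import Pool.Agent.Helper17.Dil.GR
import Pool.Agent.Helper2.Dil.S_TORUS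
import Pool.Agent.Helper25.Dil.GROW
import Pool.Agent.Helper29.Dil.LATINT
import Pool.Agent.Helper29.Dil.POIN
import Pool.Agent.Helper34.Dil.Glue
import Pool.Agent.Helper36.Dil.CHAIN
import Pool.Agent.Helper36.Dil.MAXX
import Pool.Agent.Helper36.Dil.UNIMOD
import Pool.Agent.Helper37.Dil.AbsA
import Pool.Agent.Helper37.Dil.AbsA2
import Pool.Agent.Helper37.Dil.Meas
import Pool.Agent.Helper37.Dil.Vnot
import Pool.Agent.Helper41.Dil.FINC
import Pool.Agent.Helper41.Dil.LAT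
import Pool.Agent.Helper44.Dil.LOCL
import Pool.Agent.Helper47.Dil.PERF
import Pool.Agent.Helper47.Dil.RATIO
import Pool.Agent.Helper53.Dil.GRADB
import Pool.Agent.Helper53.Dil.KER
import Pool.Agent.Helper53.Dil.REG
import Pool.Agent.Helper55.Dil.DRIFT
import Pool.Agent.Helper55.Dil.HOL
import Pool.Agent.Helper55.Dil.JENSEN
import Pool.Agent.Helper55.Dil.LIOU
import Pool.Agent.Helper61.Dil.ABS
import Pool.Agent.Helper61.Dil.EXT
import Pool.Agent.Helper61.Dil.TAU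
import Pool.Agent.Helper71.Dil.SCALE
import Pool.Agent.Helper71.Dil.WEYL
import Pool.Agent.Helper74.Dil.SOLU
import Pool.Agent.Helper77.Dil.LIMH
import Pool.Agent.Helper78.Dil.POT
import Pool.Agent.Helper91.Dil.STEPA
import Pool.Agent.Helper91.Dil.ZAS
import Pool.Agent.Helper91.Dil.SAREA

open Topology Set Filter MeasureTheory Metric
open scoped MatrixGroups

namespace Pool.Agent.Helper73.Dil

universe u

theorem all_LOCL : SB_LOCL.{u} := sb_LOCL sb_MEAS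

theorem all_POT : SB_POT.{u} := Pool.Agent.Helper78.Dil.sb_POT all_LOCL st_POIN

theorem all_EXT : SB_EXT.{u} :=
  Pool.Agent.Helper61.DilExt.sb_EXT Pool.Agent.Helper53.Dil.st_GRADB sb_CBB all_LOCL

theorem all_LAT : ST_LAT :=
  Pool.Agent.Helper41.Dil.st_LAT
    (st_LATINT Pool.Agent.Helper91.Dil.st_ZAS Pool.Agent.Helper47.Dil.st_RATIO
      Pool.Agent.Helper55.Dil.st_DRIFT)
    (Pool.Agent.Helper25.Dil.st_GROW Pool.Agent.Helper91.Dil.st_ZAS
      Pool.Agent.Helper47.Dil.st_RATIO)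

theorem all_UNIMOD : ST_UNIMOD := st_UNIMOD Pool.Agent.Helper47.Dil.st_PERF

theorem all_MAIN (hAFF : SB_AFF.{u}) : SB_MAIN.{u} :=
  sb_MAIN (hREF := sb_REF) (hSCALE := Pool.Agent.Helper71.Dil.sb_SCALE sb_PU)
    (hVNOT := sb_VNOT all_POT all_LOCL sb_LOCG)
    (hABS := sb_ABS (sb_ISO sb_MEAS Pool.Agent.Helper13.Dil.st_STOKES) (sb_MEM sb_MEAS))
    (hAFF := hAFF)
    (hABSEQ := Pool.Agent.Helper61.DilAbs.st_ABSEQ)
    (hSTEPA := Pool.Agent.Helper91.Dil.st_STEPA Pool.Agent.Helper37.Dil.st_ABSA1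
      Pool.Agent.Helper61.DilTau.st_MEAN Pool.Agent.Helper61.DilTau.st_TRANS all_UNIMOD)
    (hABSA2 := Pool.Agent.Helper37.Dil.st_ABSA2)
    (hSOL := Pool.Agent.Helper13.Dil.sb_SOL Pool.Agent.Helper71.Dil.st_WEYL (sb_WCL sb_MEAS)
      all_LOCL sb_LOCG all_POT)
    (hEXT := all_EXT) (hTORUS := sb_TORUS all_LOCL)
    (hAREA := Pool.Agent.Helper91.Dil.st_AREA sb_MEAS sb_RAT sb_BALL sb_CBB)
    (hHOL := Pool.Agent.Helper55.Dil.sb_HOL
      (Pool.Agent.Helper53.Dil.st_KER Pool.Agent.Helper71.Dil.st_WEYL) (sb_WCL sb_MEAS) all_LOCL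
      sb_CONN sb_BALL)
    (hLIMH := st_LIMH) (hMEAN := Pool.Agent.Helper61.DilTau.st_MEAN)
    (hTRANS := Pool.Agent.Helper61.DilTau.st_TRANS)
    (hGR := sb_GR Pool.Agent.Helper53.Dil.st_REG all_EXT st_MAXX st_CHAIN sb_BALL all_LOCL)
    (hSOLU := Pool.Agent.Helper74.Dil.sb_SOLU sb_CONN sb_BALL all_LOCL)
    (hJENSEN := Pool.Agent.Helper55.Dil.st_JENSEN
      (Pool.Agent.Helper55.Dil.st_LIOU all_LAT Pool.Agent.Helper47.Dil.st_PERF all_UNIMOD)
      Pool.Agent.Helper61.DilTau.st_TRANS)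
    (hFINC := Pool.Agent.Helper41.Dil.st_FINC)

theorem all_final (hAFF : SB_AFF.{u}) (X : Type u) [TopologicalSpace X] [CompactSpace X]
    [T2Space X] [ConnectedSpace X] (D : DilationSurface X) (h : D.HolonomyNontrivial) :
    ¬ IsLatticeIn D.PVeech :=
  fun hL => all_MAIN hAFF X D h (isLattice_of_isLatticeIn (neg_one_mem D) hL)

end Pool.Agent.Helper73.Dil
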