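import Pool.Agent.Helper73.Dil.Pure2

open Topology Set Filter MeasureTheory Metric

namespace Pool.Agent.Helper73.Dil

universe u

namespace DilationSurface

variable {X : Type u} [TopologicalSpace X] (D : DilationSurface X)

/-- the charts of the maximal atlas -/
def IsChart (e : OpenPartialHomeomorph X ℂ) : Prop :=
  (∀ x ∈ e.source, x ∉ D.cone) ∧
    ∀ e' ∈ D.atlas, ∀ x ∈ e.source, x ∈ e'.source → ∃ r, DilAt e' e x r

/-- flat ball: a chart whose image is the unit disc -/
def IsBall (b : OpenPartialHomeomorph X ℂ) : Prop := D.IsChart b ∧ b.target = B1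

/-- cone ball of angle `k π` around the cone point `p` -/
structure IsConeBall (p : X) (k : ℕ) (ψ : OpenPartialHomeomorph X ℂ) : Prop where
  mem : p ∈ D.cone
  one_le : 1 ≤ k
  src : p ∈ ψ.source
  zero : ψ p = 0
  tgt : ψ.target = B1
  model : ∀ x ∈ ψ.source, x ≠ p → x ∉ D.cone ∧ ∀ e, D.IsChart e → x ∈ e.source →
    ∃ (a : ℝ) (b : ℂ), a ≠ 0 ∧ ∀ᶠ y in 𝓝 x, (a * e y + b) ^ 2 = ψ y ^ k

end DilationSurface

open Classical in
/-- the real number `a` with `f' = a f + b` near `x` -/
noncomputable def rat {X : Type u} [TopologicalSpace X] (f f' : X → ℂ) (x : X) : ℝ :=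
  if h : ∃ (a : ℝ) (b : ℂ), a ≠ 0 ∧ ∀ᶠ y in 𝓝 x, f' y = a * f y + b then h.choose else 1

namespace DilationSurface

variable {X : Type u} [TopologicalSpace X] (D : DilationSurface X)

/-- a sequence of flat balls covering the regular part -/
structure Ref where
  B : ℕ → OpenPartialHomeomorph X ℂ
  ball : ∀ n, D.IsBall (B n)
  cov : ∀ x, x ∉ D.cone → ∃ n, x ∈ (B n).source

variable {D}

/-- index of the reference chart at `x` -/
noncomputable def Ref.idx (R : D.Ref) (x : X) : ℕ := sInf {n | x ∈ (R.B n).source}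

/-- reference chart at `x` -/
noncomputable def Ref.ch (R : D.Ref) (x : X) : OpenPartialHomeomorph X ℂ := R.B (R.idx x)

/-- area measure of a chart -/
noncomputable def cmeas [MeasurableSpace X] (b : OpenPartialHomeomorph X ℂ) : Measure X :=
  Measure.map b.symm (volume.restrict b.target)

/-- reference area measure -/
noncomputable def Ref.mu [MeasurableSpace X] (R : D.Ref) : Measure X :=
  Measure.sum fun n => (cmeas (R.B n)).restrict {x | x ∈ (R.B n).source ∧ R.idx x = n}

/-- gradient (in the reference chart) of a function given in every chart up to constants -/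
noncomputable def Ref.gx (R : D.Ref) (F : OpenPartialHomeomorph X ℂ → X → ℂ) (x : X) : ℂ :=
  dx (F (R.ch x) ∘ (R.ch x).symm) (R.ch x x)
noncomputable def Ref.gy (R : D.Ref) (F : OpenPartialHomeomorph X ℂ → X → ℂ) (x : X) : ℂ :=
  dy (F (R.ch x) ∘ (R.ch x).symm) (R.ch x x)

/-- coefficient of a form in the flat ball `b` -/
noncomputable def Ref.loc (R : D.Ref) (b : OpenPartialHomeomorph X ℂ) (f : X → ℂ) (z : ℂ) : ℂ :=
  (rat b (R.ch (b.symm z)) (b.symm z) : ℂ) * f (b.symm z)

variable (D)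

/-- functions smooth on the regular part and locally constant near the cone points -/
def IsTest (ψ : X → ℂ) : Prop :=
  (∀ e, D.IsChart e → ∀ x ∈ e.source, ContDiffAt ℝ (⊤ : ℕ∞) (ψ ∘ e.symm) (e x)) ∧
  ∀ p ∈ D.cone, ∀ᶠ y in 𝓝 p, ψ y = ψ p

/-- smooth functions given in every chart, different charts differing by constants locally -/
structure Twist where
  F : OpenPartialHomeomorph X ℂ → X → ℂ
  trans : ∀ e e', D.IsChart e → D.IsChart e' → ∀ x ∈ e.source, x ∈ e'.source →
    ∀ᶠ y in 𝓝 x, F e' y - F e y = F e' x - F e x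
  smooth : ∀ e, D.IsChart e → ∀ x ∈ e.source, ContDiffAt ℝ (⊤ : ℕ∞) (F e ∘ e.symm) (e x)

/-- the base scale function: `exp (-u) |dz|` is a metric, equal to the flat cone metric near
the cone points -/
structure Scale where
  u : OpenPartialHomeomorph X ℂ → X → ℝ
  trans : ∀ e e', D.IsChart e → D.IsChart e' → ∀ x ∈ e.source, x ∈ e'.source →
    ∀ r, DilAt e e' x r → u e' x = u e x + Real.log r
  smooth : ∀ e, D.IsChart e → ∀ x ∈ e.source,
    ContDiffAt ℝ (⊤ : ℕ∞) ((fun y => (u e y : ℂ)) ∘ e.symm) (e x)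
  flat : ∀ p ∈ D.cone, ∃ k ψ, D.IsConeBall p k ψ ∧ ∀ x ∈ ψ.source, x ≠ p →
    ∀ e, D.IsChart e → x ∈ e.source → ∀ (a : ℝ) (b : ℂ), a ≠ 0 →
      (∀ᶠ y in 𝓝 x, (a * e y + b) ^ 2 = ψ y ^ k) → u e x = - Real.log |a|

variable {D}

/-- smooth area measure of the base scale function -/
noncomputable def Scale.area [MeasurableSpace X] (S : D.Scale) (R : D.Ref) : Measure X :=
  R.mu.withDensity fun x => ENNReal.ofReal (Real.exp (-2 * S.u (R.ch x) x))

/-- the Hilbert space of coefficients -/
noncomputable abbrev Ref.H [MeasurableSpace X] (R : D.Ref) := Lp ℂ 2 R.mu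

/-- closure of the exact forms -/
noncomputable def Ref.E [MeasurableSpace X] (R : D.Ref) : Submodule ℂ (R.H × R.H) :=
  (Submodule.span ℂ {α : R.H × R.H | ∃ ψ, D.IsTest ψ ∧ α.1 =ᵐ[R.mu] R.gx (fun _ => ψ) ∧
    α.2 =ᵐ[R.mu] R.gy (fun _ => ψ)}).topologicalClosure

/-- `v` is the differential of the base scale function -/
def Ref.IsV [MeasurableSpace X] (R : D.Ref) (S : D.Scale) (v : R.H × R.H) : Prop :=
  v.1 =ᵐ[R.mu] R.gx (fun e x => (S.u e x : ℂ)) ∧ v.2 =ᵐ[R.mu] R.gy (fun e x => (S.u e x : ℂ))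

/-- on the flat ball `b`, `c` is the derivative of a holomorphic function `w` (for the complex
structure `t`) whose real part is base scale function plus `f` -/
def Ref.SolOn [MeasurableSpace X] (R : D.Ref) (S : D.Scale) (t : ℂ) (c : R.H) (f : X → ℝ)
    (b : OpenPartialHomeomorph X ℂ) : Prop :=
  ∃ w : ℂ → ℂ, DifferentiableOn ℂ w (tc t '' B1) ∧
    (R.loc b c =ᵐ[volume.restrict B1] fun z => deriv w (tc t z)) ∧
    ∀ z ∈ B1, S.u b (b.symm z) + f (b.symm z) = (w (tc t z)).re

/-- `f` is the difference (harmonic scale function minus base scale function) attached to the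
(1,0) form with coefficient `c` in the complex structure `t`. -/
def Ref.IsSol [MeasurableSpace X] (R : D.Ref) (S : D.Scale) (t : ℂ) (c : R.H) (f : X → ℝ) : Prop :=
  ∀ b, D.IsBall b → R.SolOn S t c f b

/-- the abstract data attached to a dilation surface -/
def Ref.IsAbs [MeasurableSpace X] (R : D.Ref) (S : D.Scale) (A : AbsData R.H) : Prop :=
  A.E = R.E ∧ R.IsV S A.v ∧ ∀ f : R.H, A.J.c f =ᵐ[R.mu] fun x => (starRingEnd ℂ) (f x)

end DilationSurface

end Pool.Agent.Helper73.Dil
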