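import Mathlib

open Topology Set Filter MeasureTheory Metric

namespace Pool.Agent.Helper73.Dil

/-- The group `SL(2,ℝ)`. -/
abbrev G := Matrix.SpecialLinearGroup (Fin 2) ℝ

instance instMeasurableSpaceG : MeasurableSpace G := borel G

instance instBorelSpaceG : BorelSpace G := ⟨rfl⟩

/-- A subgroup `Γ` of `SL(2,ℝ)` is a lattice if it is discrete and the right action of `Γ` on
`SL(2,ℝ)` has a fundamental domain of finite Haar measure. -/
def IsLattice (Γ : Subgroup G) : Prop :=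
  DiscreteTopology Γ ∧
  ∃ μ : Measure G, μ.IsHaarMeasure ∧ ∃ D : Set G, IsFundamentalDomain Γ.op D μ ∧ μ D < ⊤

/-- The linear map of the plane `ℂ = ℝ²` given by a matrix. -/
noncomputable def lin (A : G) (z : ℂ) : ℂ :=
  ⟨A.1 0 0 * z.re + A.1 0 1 * z.im, A.1 1 0 * z.re + A.1 1 1 * z.im⟩

theorem lin_mul (A B : G) (z : ℂ) : lin (A * B) z = lin A (lin B z) := by
  apply Complex.ext <;> simp [lin, Matrix.mul_apply, Fin.sum_univ_two] <;> ring

theorem lin_one (z : ℂ) : lin 1 z = z := by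
  apply Complex.ext <;> simp [lin]

theorem lin_add (A : G) (z w : ℂ) : lin A (z + w) = lin A z + lin A w := by
  apply Complex.ext <;> simp [lin] <;> ring

theorem lin_smul (A : G) (c : ℝ) (z : ℂ) : lin A (c * z) = c * lin A z := by
  apply Complex.ext <;> simp [lin] <;> ring

theorem lin_continuous (A : G) : Continuous (lin A) := by
  have h : lin A = fun z : ℂ => ((A.1 0 0 * z.re + A.1 0 1 * z.im : ℝ) : ℂ)
      + ((A.1 1 0 * z.re + A.1 1 1 * z.im : ℝ) : ℂ) * Complex.I := by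
    funext z
    apply Complex.ext <;> simp [lin]
  rw [h]
  fun_prop

/-- Two plane valued maps are related near `x` by a map `z ↦ a z + b` with `a` real, `|a| = r`. -/
def DilAt {X : Type*} [TopologicalSpace X] (f f' : X → ℂ) (x : X) (r : ℝ) : Prop :=
  ∃ (a : ℝ) (b : ℂ), a ≠ 0 ∧ |a| = r ∧ ∀ᶠ y in 𝓝 x, f' y = a * f y + b

/-- A dilation surface structure on a topological space `X`. The finite set `cone` is the set of
cone points. Away from it there is an atlas of plane charts whose transition maps are locally of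
the form `z ↦ a z + b` with `a` real and nonzero. Near a cone point `p` there is a plane chart `ψ`
centred at `p` such that the maps `ψ ^ (k / 2)` are charts of the dilation structure up to maps
`z ↦ a z + b` with `a` real and nonzero. -/
structure DilationSurface (X : Type*) [TopologicalSpace X] where
  cone : Set X
  cone_finite : cone.Finite
  atlas : Set (OpenPartialHomeomorph X ℂ)
  source_regular : ∀ e ∈ atlas, ∀ x ∈ e.source, x ∉ cone
  cover : ∀ x, x ∉ cone → ∃ e ∈ atlas, x ∈ e.source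
  compat : ∀ e ∈ atlas, ∀ e' ∈ atlas, ∀ x ∈ e.source, x ∈ e'.source → ∃ r, DilAt e e' x r
  cone_model : ∀ p ∈ cone, ∃ (k : ℕ) (ψ : OpenPartialHomeomorph X ℂ), 1 ≤ k ∧
    p ∈ ψ.source ∧ ψ p = 0 ∧
    ∀ x ∈ ψ.source, x ≠ p → x ∉ cone ∧ ∀ e ∈ atlas, x ∈ e.source →
      ∃ (a : ℝ) (b : ℂ), a ≠ 0 ∧ ∀ᶠ y in 𝓝 x, (a * e y + b) ^ 2 = ψ y ^ k

namespace DilationSurface

variable {X : Type*} [TopologicalSpace X] (D : DilationSurface X)

/-- `φ` is an affine automorphism whose derivative is `γ` up to a nonzero real scalar. -/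
def IsAffineAut (φ : X ≃ₜ X) (γ : G) : Prop :=
  (∀ x, φ x ∈ D.cone ↔ x ∈ D.cone) ∧
  ∀ x, x ∉ D.cone → ∀ e ∈ D.atlas, x ∈ e.source → ∀ e' ∈ D.atlas, φ x ∈ e'.source →
    ∃ (c : ℝ) (b : ℂ), c ≠ 0 ∧ ∀ᶠ y in 𝓝 x, e' (φ y) = c * lin γ (e y) + b

theorem isAffineAut_one : D.IsAffineAut (Homeomorph.refl X) 1 := by
  refine ⟨fun x => Iff.rfl, fun x hx e he hxe e' he' hxe' => ?_⟩
  obtain ⟨r, a, b, ha, -, h⟩ := D.compat e he e' he' x hxe hxe'
  exact ⟨a, b, ha, h.mono fun y hy => by simpa [lin_one] using hy⟩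

theorem isAffineAut_mul {φ ψ : X ≃ₜ X} {α β : G} (h1 : D.IsAffineAut φ α)
    (h2 : D.IsAffineAut ψ β) : D.IsAffineAut (ψ.trans φ) (α * β) := by
  refine ⟨fun x => ?_, fun x hx e he hxe e' he' hxe' => ?_⟩
  · simp only [Homeomorph.trans_apply]
    rw [h1.1, h2.1]
  · have hψ : ψ x ∉ D.cone := fun h => hx ((h2.1 x).1 h)
    obtain ⟨e'', he'', hxe''⟩ := D.cover _ hψ
    obtain ⟨c, b, hc, h⟩ := h2.2 x hx e he hxe e'' he'' hxe''
    obtain ⟨c', b', hc', h'⟩ := h1.2 (ψ x) hψ e'' he'' hxe'' e' he' hxe'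
    refine ⟨c' * c, c' * lin α b + b', mul_ne_zero hc' hc, ?_⟩
    filter_upwards [h, ψ.continuous.continuousAt.eventually h'] with y hy hy'
    simp only [Homeomorph.trans_apply]
    rw [hy', hy, lin_add, lin_smul, lin_mul]
    push_cast
    ring

theorem isAffineAut_inv {φ : X ≃ₜ X} {α : G} (h1 : D.IsAffineAut φ α) :
    D.IsAffineAut φ.symm α⁻¹ := by
  refine ⟨fun x => ?_, fun x hx e he hxe e' he' hxe' => ?_⟩
  · have := h1.1 (φ.symm x)
    rw [Homeomorph.apply_symm_apply] at this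
    exact this.symm
  · have hφ : φ.symm x ∉ D.cone := D.source_regular e' he' _ hxe'
    obtain ⟨c, b, hc, h⟩ := h1.2 (φ.symm x) hφ e' he' hxe' e he (by simpa using hxe)
    refine ⟨c⁻¹, -(c⁻¹ : ℝ) * lin α⁻¹ b, inv_ne_zero hc, ?_⟩
    filter_upwards [φ.symm.continuous.continuousAt.eventually h] with y hy
    rw [Homeomorph.apply_symm_apply] at hy
    rw [hy, lin_add, lin_smul, ← lin_mul, inv_mul_cancel, lin_one]
    have hc' : (c : ℂ) ≠ 0 := by exact_mod_cast hc
    push_cast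
    field_simp
    ring

/-- The full preimage in `SL(2,ℝ)` of the Veech group (which is a subgroup of `PSL(2,ℝ)`). -/
def VeechGroup : Subgroup G where
  carrier := {γ | ∃ φ : X ≃ₜ X, D.IsAffineAut φ γ}
  mul_mem' := by
    rintro α β ⟨φ, hφ⟩ ⟨ψ, hψ⟩
    exact ⟨_, D.isAffineAut_mul hφ hψ⟩
  one_mem' := ⟨_, D.isAffineAut_one⟩
  inv_mem' := by
    rintro α ⟨φ, hφ⟩
    exact ⟨_, D.isAffineAut_inv hφ⟩

/-- The scale factor `r` is the linear holonomy (up to sign) along the loop `γ`, computed along a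
subdivision `t 0 = 0 ≤ t 1 ≤ ... ≤ t n = 1` and charts `e i` around the pieces. -/
def LoopHolonomy {x : X} (γ : Path x x) (r : ℝ) : Prop :=
  ∃ (n : ℕ) (t : ℕ → unitInterval) (e : ℕ → OpenPartialHomeomorph X ℂ) (s : ℕ → ℝ),
    Monotone t ∧ t 0 = 0 ∧ t n = 1 ∧ e n = e 0 ∧ (∀ i, e i ∈ D.atlas) ∧
    (∀ i < n, ∀ u, t i ≤ u → u ≤ t (i + 1) → γ u ∈ (e i).source) ∧
    (∀ i < n, DilAt (e i) (e (i + 1)) (γ (t (i + 1))) (s i)) ∧
    r = ∏ i ∈ Finset.range n, s i

/-- The holonomy character is nontrivial. -/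
def HolonomyNontrivial : Prop :=
  ∃ (x : X) (γ : Path x x), (∀ t, γ t ∉ D.cone) ∧ ∃ r, D.LoopHolonomy γ r ∧ r ≠ 1

end DilationSurface

end Pool.Agent.Helper73.Dil
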