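import Pool.Agent.Helper73.Dil.Mem

open Topology Set Filter MeasureTheory Metric
open scoped ENNReal

namespace Pool.Agent.Helper73.Dil

universe u

open DilationSurface

section
variable {X : Type u} [TopologicalSpace X] {D : DilationSurface X}

theorem grad_zero_of_locConst (R : D.Ref) (F : D.Twist) {y : X} (hy : y ∉ D.cone)
    (h : ∀ e, D.IsChart e → y ∈ e.source → ∀ᶠ w in 𝓝 y, F.F e w = F.F e y) :
    R.gx F.F y = 0 ∧ R.gy F.F y = 0 := by
  have h1 := h (R.ch y) (ref_ch_isBall R y).1 (ref_mem_ch R hy)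
  have hc : Tendsto (R.ch y).symm (𝓝 (R.ch y y)) (𝓝 y) := by
    have := ((R.ch y).symm.continuousAt (x := R.ch y y)
      (by simpa using (R.ch y).map_source (ref_mem_ch R hy))).tendsto
    rwa [(R.ch y).left_inv (ref_mem_ch R hy)] at this
  have h2 : (F.F (R.ch y) ∘ (R.ch y).symm) =ᶠ[𝓝 (R.ch y y)] fun _ => F.F (R.ch y) y :=
    hc.eventually h1
  constructor
  · simp only [Ref.gx, dx, h2.fderiv_eq]; simp
  · simp only [Ref.gy, dy, h2.fderiv_eq]; simp

theorem testTwist_vanish (R : D.Ref) {ψ : X → ℂ} (hψ : D.IsTest ψ) :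
    ∀ p ∈ D.cone, ∀ᶠ y in 𝓝 p, y ∉ D.cone → R.gx (testTwist hψ).F y = 0 ∧
      R.gy (testTwist hψ).F y = 0 := by
  intro p hp
  filter_upwards [(hψ.2 p hp).eventually_nhds] with y hy hyc
  apply grad_zero_of_locConst R _ hyc
  intro e _ _
  have h0 := hy.self_of_nhds
  filter_upwards [hy] with w hw
  change ψ w = ψ y
  rw [hw, h0]

theorem scaleTwist_vanish (R : D.Ref) (S : D.Scale) :
    ∀ p ∈ D.cone, ∀ᶠ y in 𝓝 p, y ∉ D.cone → R.gx (scaleTwist S).F y = 0 ∧
      R.gy (scaleTwist S).F y = 0 := by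
  intro p hp
  obtain ⟨k, ψ, hψ, hflat⟩ := S.flat p hp
  filter_upwards [ψ.open_source.mem_nhds hψ.src] with y hy hyc
  apply grad_zero_of_locConst R _ hyc
  intro e he hye
  have hyp : y ≠ p := fun h => hyc (h ▸ hp)
  obtain ⟨a, β, ha, h⟩ := (hψ.model y hy hyp).2 e he hye
  have h0 := hflat y hy hyp e he hye a β ha h
  have hpo : ∀ᶠ w in 𝓝 y, w ≠ p ∧ w ∈ ψ.source := by
    have h1 : ∀ᶠ w in 𝓝 y, w ∈ ψ.source := ψ.open_source.mem_nhds hy
    have h2 : ∀ᶠ w in 𝓝 y, ψ w ≠ 0 := by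
      have hc : ContinuousAt ψ y := ψ.continuousAt hy
      apply hc.eventually_ne
      intro h3
      apply hyp
      rw [← hψ.zero] at h3
      exact ψ.injOn hy hψ.src h3
    filter_upwards [h1, h2] with w hw1 hw2
    exact ⟨fun h3 => hw2 (by rw [h3, hψ.zero]), hw1⟩
  filter_upwards [h.eventually_nhds, hpo, e.open_source.mem_nhds hye] with w h1 h2 h3
  have h5 := hflat w h2.2 h2.1 e he h3 a β ha h1
  change ((S.u e w : ℝ) : ℂ) = ((S.u e y : ℝ) : ℂ)
  rw [h5, h0]

theorem aemeasurable_symm [MeasurableSpace X] [BorelSpace X]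
    {b : OpenPartialHomeomorph X ℂ} (hb : D.IsBall b) :
    AEMeasurable b.symm (volume.restrict B1) := by
  apply ContinuousOn.aemeasurable _ measurableSet_B1
  have := b.symm.continuousOn
  simpa [hb.2] using this

/-- the reference measure on a flat ball -/
theorem mu_restrict_ball [MeasurableSpace X] [BorelSpace X] (R : D.Ref)
    {b : OpenPartialHomeomorph X ℂ} (hb : D.IsBall b)
    (hT : ∀ F : X → ENNReal, Measurable F → ∫⁻ x in b.source, F x ∂(R.mu) =
      ∫⁻ z in B1, F (b.symm z) * ENNReal.ofReal ((rat b (R.ch (b.symm z)) (b.symm z)) ^ 2)) :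
    R.mu.restrict b.source = Measure.map b.symm ((volume.restrict B1).withDensity
      fun z => ENNReal.ofReal ((rat b (R.ch (b.symm z)) (b.symm z)) ^ 2)) := by
  ext A hA
  have h1 := hT (A.indicator 1) (measurable_one.indicator hA)
  rw [lintegral_indicator_one hA] at h1
  rw [h1, Measure.map_apply_of_aemeasurable ((aemeasurable_symm hb).mono_ac
    (withDensity_absolutelyContinuous _ _)) hA]
  have hms : NullMeasurableSet (b.symm ⁻¹' A) (volume.restrict B1) :=
    (aemeasurable_symm hb).nullMeasurableSet_preimage hA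
  rw [withDensity_apply₀ _ hms]
  rw [← lintegral_indicator₀ hms]
  congr 1
  funext z
  by_cases hz : b.symm z ∈ A
  · rw [indicator_of_mem (show z ∈ b.symm ⁻¹' A from hz), indicator_of_mem hz]; simp
  · rw [indicator_of_notMem (show z ∉ b.symm ⁻¹' A from hz), indicator_of_notMem hz]; simp

theorem aemeasurable_rat [MeasurableSpace X] (R : D.Ref) {b : OpenPartialHomeomorph X ℂ}
    (hm : Measurable (fun z : B1 => rat b (R.ch (b.symm z)) (b.symm z))) :
    AEMeasurable (fun z => rat b (R.ch (b.symm z)) (b.symm z)) (volume.restrict B1) := by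
  rw [aemeasurable_restrict_iff_comap_subtype measurableSet_B1]
  exact hm.aemeasurable

/-- Bochner transfer formula -/
theorem integral_ball [MeasurableSpace X] [BorelSpace X] (R : D.Ref)
    {b : OpenPartialHomeomorph X ℂ} (hb : D.IsBall b)
    (hm : Measurable (fun z : B1 => rat b (R.ch (b.symm z)) (b.symm z)))
    (hT : ∀ F : X → ENNReal, Measurable F → ∫⁻ x in b.source, F x ∂(R.mu) =
      ∫⁻ z in B1, F (b.symm z) * ENNReal.ofReal ((rat b (R.ch (b.symm z)) (b.symm z)) ^ 2))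
    {f : X → ℂ} (hf : AEStronglyMeasurable f (R.mu.restrict b.source)) :
    ∫ x in b.source, f x ∂(R.mu) =
      ∫ z in B1, ((rat b (R.ch (b.symm z)) (b.symm z) : ℝ) : ℂ) ^ 2 * f (b.symm z) := by
  have h1 := mu_restrict_ball R hb hT
  rw [h1] at hf
  rw [h1, integral_map ((aemeasurable_symm hb).mono_ac
    (withDensity_absolutelyContinuous _ _)) hf]
  rw [integral_withDensity_eq_integral_toReal_smul₀]
  · congr 1
    funext z
    rw [ENNReal.toReal_ofReal (sq_nonneg _)]
    simp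
  · exact ((aemeasurable_rat R hm).pow_const 2).ennreal_ofReal
  · exact Eventually.of_forall fun z => ENNReal.ofReal_lt_top

/-- a test function supported in a flat ball is a plane test function there -/
theorem exists_ptest [T2Space X] {b : OpenPartialHomeomorph X ℂ} (hb : D.IsBall b) {Ψ : X → ℂ}
    (hΨ : D.IsTest Ψ) {K' : Set X} (hK' : IsCompact K') (hsub : K' ⊆ b.source)
    (h0 : ∀ x, x ∉ K' → Ψ x = 0) : ∃ a, PTest a ∧ ∀ z ∈ B1, a z = Ψ (b.symm z) := by
  classical
  let a : ℂ → ℂ := fun z => if z ∈ B1 then Ψ (b.symm z) else 0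
  have hKc : IsCompact (b '' K') := hK'.image_of_continuousOn (b.continuousOn.mono hsub)
  have hK1 : b '' K' ⊆ B1 := by
    rintro z ⟨x, hx, rfl⟩
    rw [← hb.2]; exact b.map_source (hsub hx)
  have ha0 : ∀ z, z ∉ b '' K' → a z = 0 := by
    intro z hz
    simp only [a]
    split_ifs with h
    · apply h0
      intro h2
      apply hz
      exact ⟨_, h2, ball_right_inv hb h⟩
    · rfl
  have hts : tsupport a ⊆ b '' K' := by
    apply closure_minimal _ hKc.isClosed
    intro z hz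
    by_contra h
    exact hz (ha0 z h)
  refine ⟨a, ⟨?_, ?_, hts.trans hK1⟩, fun z hz => by simp only [a]; rw [if_pos hz]⟩
  · rw [contDiff_iff_contDiffAt]
    intro z
    by_cases hz : z ∈ B1
    · have h1 := hΨ.1 b hb.1 (b.symm z) (ball_symm_mem hb hz)
      rw [ball_right_inv hb hz] at h1
      refine h1.congr_of_eventuallyEq ?_
      filter_upwards [isOpen_B1.mem_nhds hz] with w hw
      simp only [a]; rw [if_pos hw]; rfl
    · have hz' : z ∉ b '' K' := fun h => hz (hK1 h)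
      refine (contDiffAt_const (c := (0 : ℂ))).congr_of_eventuallyEq ?_
      filter_upwards [hKc.isClosed.isOpen_compl.mem_nhds hz'] with w hw
      exact ha0 w hw
  · exact IsCompact.of_isClosed_subset hKc (isClosed_tsupport a) hts

theorem dx_congr_B1 {a a' : ℂ → ℂ} (h : ∀ z ∈ B1, a z = a' z) {z : ℂ} (hz : z ∈ B1) :
    dx a z = dx a' z ∧ dy a z = dy a' z := by
  have h1 : a =ᶠ[𝓝 z] a' := by
    filter_upwards [isOpen_B1.mem_nhds hz] with w hw
    exact h w hw
  constructor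
  · simp only [dx, h1.fderiv_eq]
  · simp only [dy, h1.fderiv_eq]

/-- the gradient of a test function vanishes off a closed set outside which the function is zero -/
theorem grad_test_zero (R : D.Ref) {Ψ : X → ℂ} {K' : Set X} (hK' : IsClosed K')
    (h0 : ∀ x, x ∉ K' → Ψ x = 0) {x : X} (hx : x ∉ K') (hxc : x ∉ D.cone) :
    R.gx (fun _ => Ψ) x = 0 ∧ R.gy (fun _ => Ψ) x = 0 := by
  have hc : Tendsto (R.ch x).symm (𝓝 (R.ch x x)) (𝓝 x) := by
    have := ((R.ch x).symm.continuousAt (x := R.ch x x)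
      (by simpa using (R.ch x).map_source (ref_mem_ch R hxc))).tendsto
    rwa [(R.ch x).left_inv (ref_mem_ch R hxc)] at this
  have h1 : ∀ᶠ y in 𝓝 x, Ψ y = 0 := by
    filter_upwards [hK'.isOpen_compl.mem_nhds hx] with y hy
    exact h0 y hy
  have h2 : (Ψ ∘ (R.ch x).symm) =ᶠ[𝓝 (R.ch x x)] fun _ => (0 : ℂ) := hc.eventually h1
  constructor
  · simp only [Ref.gx, dx]; rw [h2.fderiv_eq]; simp
  · simp only [Ref.gy, dy]; rw [h2.fderiv_eq]; simp

/-- pairing of a form with the differential of a test function supported in a flat ball -/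
theorem integral_pair_ball [CompactSpace X] [T2Space X] [MeasurableSpace X] [BorelSpace X]
    (R : D.Ref) (hM : SB_MEAS.{u}) {b : OpenPartialHomeomorph X ℂ} (hb : D.IsBall b)
    {Ψ : X → ℂ} (hΨ : D.IsTest Ψ) {K' : Set X} (hK' : IsCompact K') (hsub : K' ⊆ b.source)
    (h0 : ∀ x, x ∉ K' → Ψ x = 0) {a : ℂ → ℂ} (ha : ∀ z ∈ B1, a z = Ψ (b.symm z)) {f g : X → ℂ}
    (hf : AEStronglyMeasurable f R.mu) (hg : AEStronglyMeasurable g R.mu) :
    ∫ x, (f x * R.gy (fun _ => Ψ) x - g x * R.gx (fun _ => Ψ) x) ∂(R.mu) =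
      ∫ z in B1, (R.loc b f z * dy a z - R.loc b g z * dx a z) := by
  obtain ⟨hcone, -, -, -, hidx, hT⟩ := hM X D R
  have hgx : Measurable (R.gx fun _ => Ψ) := measurable_gx R hidx (testTwist hΨ)
  have hgy : Measurable (R.gy fun _ => Ψ) := measurable_gy R hidx (testTwist hΨ)
  have hae : ∀ᵐ x ∂(R.mu), x ∉ D.cone := by
    rw [ae_iff]; simpa using hcone
  have h1 : ∫ x, (f x * R.gy (fun _ => Ψ) x - g x * R.gx (fun _ => Ψ) x) ∂(R.mu) =
      ∫ x in b.source, (f x * R.gy (fun _ => Ψ) x - g x * R.gx (fun _ => Ψ) x) ∂(R.mu) := by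
    symm
    apply setIntegral_eq_integral_of_ae_compl_eq_zero
    filter_upwards [hae] with x hx hxb
    have := grad_test_zero R hK'.isClosed h0 (fun h => hxb (hsub h)) hx
    rw [this.1, this.2]; simp
  rw [h1, integral_ball R hb (hT b hb).1 (hT b hb).2]
  · apply setIntegral_congr_fun measurableSet_B1
    intro z hz
    have hl := sb_LOCG X D R (testTwist hΨ) b hb z hz
    have hd := dx_congr_B1 (a := a) (a' := Ψ ∘ b.symm) ha hz
    beta_reduce
    rw [hd.1, hd.2]
    change _ = R.loc b f z * dy ((testTwist hΨ).F b ∘ b.symm) z -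
      R.loc b g z * dx ((testTwist hΨ).F b ∘ b.symm) z
    rw [← hl.1, ← hl.2]
    simp only [Ref.loc]
    change _ = _ * f (b.symm z) * (_ * R.gy (fun _ => Ψ) (b.symm z)) -
      _ * g (b.symm z) * (_ * R.gx (fun _ => Ψ) (b.symm z))
    ring
  · exact ((hf.mul hgy.aestronglyMeasurable).sub (hg.mul hgx.aestronglyMeasurable)).mono_measure
      Measure.restrict_le_self

end

theorem sb_ISO (hM : SB_MEAS.{u}) (hS : ST_STOKES) : SB_ISO.{u} := by
  intro X _ _ _ _ _ D R F ψ hF hψ
  obtain ⟨hcone, -, -, -, hidx, hT⟩ := hM X D R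
  have hT' := fun b hb => (hT b hb).2
  have hae : ∀ᵐ x ∂(R.mu), x ∉ D.cone := by
    rw [ae_iff]; simpa using hcone
  have hcontB : ∀ (F : D.Twist) (b : OpenPartialHomeomorph X ℂ), D.IsBall b →
      ContinuousOn (dx (F.F b ∘ b.symm)) B1 ∧ ContinuousOn (dy (F.F b ∘ b.symm)) B1 := by
    intro F b hb
    have h2 : ContinuousOn b.symm B1 := by
      have := b.symm.continuousOn
      simpa [hb.2] using this
    constructor
    · refine ((continuousOn_grad F hb.1 1).comp h2 fun z hz => ball_symm_mem hb hz).congr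
        fun z hz => ?_
      simp only [Function.comp]
      rw [ball_right_inv hb hz]; rfl
    · refine ((continuousOn_grad F hb.1 Complex.I).comp h2 fun z hz => ball_symm_mem hb hz).congr
        fun z hz => ?_
      simp only [Function.comp]
      rw [ball_right_inv hb hz]; rfl
  have hLp : ∀ (F : D.Twist), (∀ p ∈ D.cone, ∀ᶠ y in 𝓝 p, y ∉ D.cone → R.gx F.F y = 0 ∧
      R.gy F.F y = 0) → MemLp (R.gx F.F) 2 R.mu ∧ MemLp (R.gy F.F) 2 R.mu := by
    intro F hF
    exact ⟨memLp_of_vanish R hcone hT' (measurable_gx R hidx F)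
      (fun b hb => ⟨_, (hcontB F b hb).1, fun z hz => (sb_LOCG X D R F b hb z hz).1⟩)
      (fun p hp => (hF p hp).mono fun y hy hyc => (hy hyc).1),
      memLp_of_vanish R hcone hT' (measurable_gy R hidx F)
      (fun b hb => ⟨_, (hcontB F b hb).2, fun z hz => (sb_LOCG X D R F b hb z hz).2⟩)
      (fun p hp => (hF p hp).mono fun y hy hyc => (hy hyc).2)⟩
  -- the compact set off which the gradient of F vanishes
  have hN : ∀ p : X, ∃ N : Set X, IsOpen N ∧ (p ∈ D.cone → p ∈ N ∧ ∀ y ∈ N, y ∉ D.cone →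
      R.gx F.F y = 0 ∧ R.gy F.F y = 0) := by
    intro p
    by_cases hp : p ∈ D.cone
    · obtain ⟨N, h1, h2, h3⟩ := eventually_nhds_iff.1 (hF p hp)
      exact ⟨N, h2, fun _ => ⟨h3, h1⟩⟩
    · exact ⟨∅, isOpen_empty, fun h => absurd h hp⟩
  choose N hN1 hN2 using hN
  let K : Set X := (⋃ p ∈ D.cone, N p)ᶜ
  have hK : IsCompact K := (isOpen_biUnion fun p _ => hN1 p).isClosed_compl.isCompact
  have hKc : K ⊆ (D.cone)ᶜ := fun x hx hxc => hx (mem_biUnion hxc (hN2 x hxc).1)
  have hzero : ∀ x, x ∉ D.cone → x ∉ K → R.gx F.F x = 0 ∧ R.gy F.F x = 0 := by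
    intro x hx hxK
    simp only [K, mem_compl_iff, not_not, mem_iUnion] at hxK
    obtain ⟨p, hp, hxp⟩ := hxK
    exact (hN2 p hp).2 x hxp hx
  obtain ⟨n, b, χ, hχ, U, hU, hKU, hsum⟩ := sb_PU X D K hK hKc
  let Ψ : Fin n → X → ℂ := fun i x => χ i x * ψ x
  have hΨ : ∀ i, D.IsTest (Ψ i) := fun i => isTest_mul (hχ i).2.1 hψ
  have hpt : ∀ x, x ∉ D.cone → R.gx F.F x * R.gy (fun _ => ψ) x - R.gy F.F x * R.gx (fun _ => ψ) x
      = ∑ i, (R.gx F.F x * R.gy (fun _ => Ψ i) x - R.gy F.F x * R.gx (fun _ => Ψ i) x) := by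
    intro x hx
    by_cases hxK : x ∈ K
    · have hev : ∀ᶠ y in 𝓝 x, ∑ i, Ψ i y = ψ y := by
        filter_upwards [hU.mem_nhds (hKU hxK)] with y hy
        simp only [Ψ]
        rw [← Finset.sum_mul, hsum y hy, one_mul]
      have hc : Tendsto (R.ch x).symm (𝓝 (R.ch x x)) (𝓝 x) := by
        have := ((R.ch x).symm.continuousAt (x := R.ch x x)
          (by simpa using (R.ch x).map_source (ref_mem_ch R hx))).tendsto
        rwa [(R.ch x).left_inv (ref_mem_ch R hx)] at this
      have heq : (ψ ∘ (R.ch x).symm) =ᶠ[𝓝 (R.ch x x)]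
          fun z => ∑ i, (Ψ i ∘ (R.ch x).symm) z := by
        filter_upwards [hc.eventually hev] with z hz
        simp only [Function.comp]; rw [hz]
      have hd : ∀ i ∈ Finset.univ, DifferentiableAt ℝ (Ψ i ∘ (R.ch x).symm) (R.ch x x) :=
        fun i _ => ((hΨ i).1 _ (ref_ch_isBall R x).1 x (ref_mem_ch R hx)).differentiableAt
          (by simp)
      have hfd : ∀ v, fderiv ℝ (ψ ∘ (R.ch x).symm) (R.ch x x) v =
          ∑ i, fderiv ℝ (Ψ i ∘ (R.ch x).symm) (R.ch x x) v := by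
        intro v
        rw [heq.fderiv_eq, fderiv_fun_sum hd]
        simp
      have h1 : R.gx (fun _ => ψ) x = ∑ i, R.gx (fun _ => Ψ i) x := hfd 1
      have h2 : R.gy (fun _ => ψ) x = ∑ i, R.gy (fun _ => Ψ i) x := hfd Complex.I
      rw [h1, h2, Finset.mul_sum, Finset.mul_sum, ← Finset.sum_sub_distrib]
    · obtain ⟨h1, h2⟩ := hzero x hx hxK
      rw [h1, h2]; simp
  have hint : ∀ i, Integrable (fun x => R.gx F.F x * R.gy (fun _ => Ψ i) x -
      R.gy F.F x * R.gx (fun _ => Ψ i) x) R.mu := by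
    intro i
    have h1 := hLp (testTwist (hΨ i)) (testTwist_vanish R (hΨ i))
    have h2 := hLp F hF
    exact (h2.1.integrable_mul h1.2).sub (h2.2.integrable_mul h1.1)
  have h3 : ∫ x, (R.gx F.F x * R.gy (fun _ => ψ) x - R.gy F.F x * R.gx (fun _ => ψ) x) ∂(R.mu) =
      ∫ x, ∑ i, (R.gx F.F x * R.gy (fun _ => Ψ i) x - R.gy F.F x * R.gx (fun _ => Ψ i) x)
        ∂(R.mu) := by
    apply integral_congr_ae
    filter_upwards [hae] with x hx
    exact hpt x hx
  rw [h3, integral_finsetSum _ fun i _ => hint i]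
  apply Finset.sum_eq_zero
  intro i _
  obtain ⟨hb, hχt, K', hK', hsub, h0⟩ := hχ i
  have h0' : ∀ x, x ∉ K' → Ψ i x = 0 := fun x hx => by simp only [Ψ]; rw [h0 x hx, zero_mul]
  obtain ⟨a, ha, haΨ⟩ := exists_ptest hb (hΨ i) hK' hsub h0'
  rw [integral_pair_ball R hM hb (hΨ i) hK' hsub h0' haΨ
    (measurable_gx R hidx F).aestronglyMeasurable (measurable_gy R hidx F).aestronglyMeasurable]
  have hsm : ContDiffOn ℝ 2 (F.F (b i) ∘ (b i).symm) B1 := by
    intro z hz
    have h1 := F.smooth (b i) hb.1 _ (ball_symm_mem hb hz)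
    rw [ball_right_inv hb hz] at h1
    exact (h1.of_le (WithTop.coe_le_coe.2 le_top)).contDiffWithinAt
  rw [← hS _ a hsm ha]
  apply setIntegral_congr_fun measurableSet_B1
  intro z hz
  have hl := sb_LOCG X D R F (b i) hb z hz
  beta_reduce
  rw [hl.1, hl.2]

theorem sb_WCL (hM : SB_MEAS.{u}) : SB_WCL.{u} := by
  intro X _ _ _ _ _ D R S A hA α hα b hb a ha
  obtain ⟨hcone, -, -, -, hidx, hT⟩ := hM X D R
  have hψ := isTest_extBall hb ha
  set ψ := extBall b a with hψdef
  obtain ⟨h1, h2⟩ := (sb_MEM hM X D R).1 ψ hψ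
  have hε : ((h1.toLp _, h2.toLp _) : R.H × R.H) ∈ A.E := by
    rw [hA.1]
    apply Submodule.le_topologicalClosure
    apply Submodule.subset_span
    exact ⟨ψ, hψ, h1.coeFn_toLp, h2.coeFn_toLp⟩
  have h3 := hα _ hε
  rw [Om, L2.inner_def, L2.inner_def, ← integral_sub] at h3
  · have h4 : ∫ x, (α.1 x * R.gy (fun _ => ψ) x - α.2 x * R.gx (fun _ => ψ) x) ∂(R.mu) = 0 := by
      rw [← h3]
      apply integral_congr_ae
      filter_upwards [h1.coeFn_toLp, h2.coeFn_toLp, hA.2.2 α.1, hA.2.2 α.2] with x e1 e2 e3 e4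
      rw [e1, e2, e3, e4]
      simp [RCLike.inner_apply, mul_comm]
    rw [← integral_pair_ball R hM hb hψ (suppBall_compact hb ha) (suppBall_subset hb ha)
      (fun x hx => extBall_zero hx) (fun z hz => (extBall_symm hb hz).symm)
      (Lp.aestronglyMeasurable α.1) (Lp.aestronglyMeasurable α.2)]
    exact h4
  · exact L2.integrable_inner _ _
  · exact L2.integrable_inner _ _

end Pool.Agent.Helper73.Dil
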