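import Pool.Agent.Helper73.Dil.Defs

open Topology Set Filter MeasureTheory Metric

namespace Pool.Agent.Helper73.Dil

/-! ## SL(2,ℝ): notation -/

/-- Hilbert-Schmidt norm. -/
noncomputable def hs (g : G) : ℝ :=
  Real.sqrt (g.1 0 0 ^ 2 + g.1 0 1 ^ 2 + g.1 1 0 ^ 2 + g.1 1 1 ^ 2)

/-- rotation by `θ` -/
noncomputable def rot (θ : ℝ) : G :=
  ⟨!![Real.cos θ, -Real.sin θ; Real.sin θ, Real.cos θ], by
    rw [Matrix.det_fin_two_of]; have := Real.sin_sq_add_cos_sq θ; nlinarith⟩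

/-- the diagonal matrix `diag(e^{r/2}, e^{-r/2})` -/
noncomputable def dia (r : ℝ) : G :=
  ⟨!![Real.exp (r / 2), 0; 0, Real.exp (-(r / 2))], by
    rw [Matrix.det_fin_two_of, ← Real.exp_add]; simp⟩

/-- norm of the traceless part of a matrix (half of the Hilbert-Schmidt norm squared) -/
noncomputable def tn (M : G) : ℝ :=
  Real.sqrt (((M.1 0 0 - M.1 1 1) / 2) ^ 2 + (M.1 0 1 ^ 2 + M.1 1 0 ^ 2) / 2)

/-- the point of the upper half plane attached to `g` (kernel of type (1,0) covectors) -/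
noncomputable def tau (g : G) : ℂ :=
  ((g.1 0 1 : ℂ) + Complex.I * g.1 1 1) / ((g.1 0 0 : ℂ) + Complex.I * g.1 1 0)

/-- upper half plane as a subset of `ℂ` -/
def UH : Set ℂ := {t | 0 < t.im}

/-! ## Lattice lemma, split into pieces -/

/-- ZAS (Zassenhaus): in a discrete group two elements with small traceless part commute. -/
def ST_ZAS : Prop := ∃ ε : ℝ, 0 < ε ∧ ∀ Γ : Subgroup G, DiscreteTopology Γ →
  ∀ (g : G) (α β : G), α ∈ Γ → β ∈ Γ → tn (g * α * g⁻¹) < ε → tn (g * β * g⁻¹) < ε →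
    α * β = β * α

/-- RATIO: for commuting elements different from `±1` the ratio of the `tn` is constant. -/
def ST_RATIO : Prop := ∀ α β : G, α * β = β * α → α ≠ 1 → α ≠ -1 → β ≠ 1 → β ≠ -1 →
  ∃ κ : ℝ, 0 < κ ∧ ∀ g : G, tn (g * β * g⁻¹) = κ * tn (g * α * g⁻¹)

/-- DRIFT: the average of `tn^{-1/2}` over a small circle is smaller by a definite factor. -/
def ST_DRIFT : Prop := ∃ (r c : ℝ), 0 < r ∧ 0 < c ∧ c < 1 ∧ ∀ (g γ : G), tn γ ≠ 0 →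
  (1 / (2 * Real.pi)) * ∫ θ in (0 : ℝ)..(2 * Real.pi),
      (tn ((dia r * rot θ * g) * γ * (dia r * rot θ * g)⁻¹)) ^ (-(1 / 2) : ℝ)
    ≤ (1 - c) * (tn (g * γ * g⁻¹)) ^ (-(1 / 2) : ℝ)

/-- the function `ε(g)^{-1/2}` of the blueprint -/
noncomputable def lam (Γ : Subgroup G) (g : G) : ENNReal :=
  ⨆ γ : {γ : G // γ ∈ Γ ∧ γ ≠ 1 ∧ γ ≠ -1},
    ENNReal.ofReal ((tn (g * γ.1 * g⁻¹)) ^ (-(1 / 2) : ℝ))

/-- PERF: `SL(2,ℝ)` has no nontrivial homomorphism to the additive reals. -/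
def ST_PERF : Prop := ∀ f : G → ℝ, (∀ g h, f (g * h) = f g + f h) → ∀ g, f g = 0

/-- UNIMOD: Haar measure on `SL(2,ℝ)` is right invariant. -/
def ST_UNIMOD : Prop := ∀ μ : Measure G, μ.IsHaarMeasure → μ.IsMulRightInvariant

/-- LATINT: `lam` is integrable on `G/Γ`. -/
def ST_LATINT : Prop := ∀ (Γ : Subgroup G) (μ : Measure G) (D : Set G), DiscreteTopology Γ →
  μ.IsHaarMeasure → μ.IsMulRightInvariant → IsFundamentalDomain Γ.op D μ → μ D < ⊤ →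
  ∫⁻ g in D, lam Γ g ∂μ < ⊤

/-- GROW: every point of `G/Γ` is at bounded distance, in terms of `lam`, from the base point. -/
def ST_GROW : Prop := ∀ (Γ : Subgroup G) (μ : Measure G) (D : Set G), DiscreteTopology Γ →
  μ.IsHaarMeasure → μ.IsMulRightInvariant → IsFundamentalDomain Γ.op D μ → μ D < ⊤ →
  ∃ C : ENNReal, C < ⊤ ∧ ∀ g : G, ∃ γ ∈ Γ, ENNReal.ofReal (hs (g * γ)) ≤ C * (1 + lam Γ g)

/-- LAT: the lattice lemma. -/
def ST_LAT : Prop := ∀ (Γ : Subgroup G) (μ : Measure G) (D : Set G), DiscreteTopology Γ →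
  μ.IsHaarMeasure → μ.IsMulRightInvariant → IsFundamentalDomain Γ.op D μ → μ D < ⊤ →
  ∫⁻ g in D, (⨅ γ : Γ, ENNReal.ofReal (hs (g * γ.1))) ∂μ < ⊤

/-- LIOU: Liouville property for lattices, functions of growth `hs`. -/
def ST_LIOU : Prop := ∀ (Γ : Subgroup G), IsLattice Γ → ∀ F : G → ℝ, Continuous F →
  (∀ θ g, F (rot θ * g) = F g) → (∀ γ ∈ Γ, ∃ c, ∀ g, F (g * γ) = F g + c) →
  (∃ C, ∀ g, |F g| ≤ C * hs g) →
  (∀ r g, 0 ≤ r →
    F g ≤ (1 / (2 * Real.pi)) * ∫ θ in (0 : ℝ)..(2 * Real.pi), F (dia r * rot θ * g)) →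
  ∀ r g, 0 ≤ r →
    F g = (1 / (2 * Real.pi)) * ∫ θ in (0 : ℝ)..(2 * Real.pi), F (dia r * rot θ * g)

/-- MEAN: hyperbolic circle mean value property of holomorphic functions. -/
def ST_MEAN : Prop := ∀ (h : ℂ → ℂ), DifferentiableOn ℂ h UH → ∀ (r : ℝ) (g : G), 0 ≤ r →
  (∀ g, tau g ∈ UH) ∧ Continuous (fun g => tau g) ∧ (∀ θ g, tau (rot θ * g) = tau g) ∧
  (1 / (2 * Real.pi)) * ∫ θ in (0 : ℝ)..(2 * Real.pi), h (tau (dia r * rot θ * g)) = h (tau g)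

/-- TRANS: geometry of `tau`: surjectivity, and any two points are joined by circle steps. -/
def ST_TRANS : Prop := (∀ t ∈ UH, ∃ g : G, tau g = t) ∧
  (∀ g g' : G, ∃ (r θ θ' : ℝ), 0 ≤ r ∧ g' = rot θ' * dia r * rot θ * g)

/-! ## Abstract Step A -/

/-- an antiunitary involution of a complex Hilbert space -/
structure Conj (H : Type*) [NormedAddCommGroup H] [InnerProductSpace ℂ H] where
  c : H → H
  add : ∀ f g, c (f + g) = c f + c g
  smul : ∀ (a : ℂ) f, c (a • f) = (starRingEnd ℂ) a • c f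
  invol : ∀ f, c (c f) = f
  inner : ∀ f g, inner ℂ (c f) (c g) = inner ℂ g f

/-- the bilinear form `∫ α ∧ β` -/
noncomputable def Om {H : Type*} [NormedAddCommGroup H] [InnerProductSpace ℂ H] (J : Conj H)
    (α β : H × H) : ℂ := inner ℂ (J.c α.1) β.2 - inner ℂ (J.c α.2) β.1

/-- the energy of a form in the complex structure `t` -/
noncomputable def Qf {H : Type*} [NormedAddCommGroup H]
    [InnerProductSpace ℂ H] (t : ℂ) (α : H × H) : ℝ :=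
  ‖α.2 - (t.re : ℂ) • α.1‖ ^ 2 / t.im + t.im * ‖α.1‖ ^ 2

/-- the data of the abstract Step A -/
structure AbsData (H : Type*) [NormedAddCommGroup H] [InnerProductSpace ℂ H] where
  J : Conj H
  E : Submodule ℂ (H × H)
  closed : IsClosed (E : Set (H × H))
  conj : ∀ α ∈ E, (J.c α.1, J.c α.2) ∈ E
  iso : ∀ α ∈ E, ∀ β ∈ E, Om J α β = 0
  v : H × H
  vreal : J.c v.1 = v.1 ∧ J.c v.2 = v.2
  vclosed : ∀ ε ∈ E, Om J v ε = 0
  vnot : v ∉ E

/-- the minimal energy in the class of `v` -/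
noncomputable def En {H : Type*} [NormedAddCommGroup H] [InnerProductSpace ℂ H]
    (A : AbsData H) (t : ℂ) : ℝ := ⨅ ε : A.E, Qf t (A.v + ε.1)

/-- `c` is the coefficient of the closed (1,0) form whose real part is in the class of `v` -/
def IsRep {H : Type*} [NormedAddCommGroup H] [InnerProductSpace ℂ H]
    (A : AbsData H) (t : ℂ) (c : H) : Prop :=
  (∀ ε ∈ A.E, Om A.J (c, t • c) ε = 0) ∧
  ((1 / 2 : ℂ) • (c + A.J.c c, t • c + A.J.c (t • c)) - A.v ∈ A.E)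

universe u

/-- ABSA1: `1/En` is everywhere touched from above by positive harmonic functions. -/
def ST_ABSA1 : Prop := ∀ (H : Type u) [NormedAddCommGroup H] [InnerProductSpace ℂ H]
  [CompleteSpace H] (A : AbsData H),
  (∀ t ∈ UH, 0 < En A t) ∧ ContinuousOn (En A) UH ∧
  ∀ t0 ∈ UH, ∃ h : ℂ → ℂ, DifferentiableOn ℂ h UH ∧ (∀ t ∈ UH, 1 / En A t ≤ (h t).im) ∧
    (h t0).im = 1 / En A t0

/-- ABSA2: if the energy is constant, the (1,0) forms vary holomorphically. -/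
def ST_ABSA2 : Prop := ∀ (H : Type u) [NormedAddCommGroup H] [InnerProductSpace ℂ H]
  [CompleteSpace H] (A : AbsData H) (E0 : ℝ), (∀ t ∈ UH, En A t = E0) →
  ∃ c : ℂ → H, DifferentiableOn ℂ c UH ∧ ∀ t ∈ UH, IsRep A t (c t) ∧
    t.im * ‖c t‖ ^ 2 = E0 ∧
    ∀ t' ∈ UH, (c t - c t', t • c t - t' • c t') ∈ A.E

/-- ABSU: uniqueness of the representative. -/
def ST_ABSU : Prop := ∀ (H : Type u) [NormedAddCommGroup H] [InnerProductSpace ℂ H]
  [CompleteSpace H] (A : AbsData H) (t : ℂ) (c c' : H), t ∈ UH → IsRep A t c → IsRep A t c' →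
  c = c'

/-- pull back of forms by a map with linear part proportional to `γ` -/
noncomputable def pull {H : Type*} [NormedAddCommGroup H] [InnerProductSpace ℂ H]
    (T : H ≃ₗᵢ[ℂ] H) (γ : G) (α : H × H) : H × H :=
  ((γ.1 0 0 : ℂ) • T α.1 + (γ.1 1 0 : ℂ) • T α.2, (γ.1 0 1 : ℂ) • T α.1 + (γ.1 1 1 : ℂ) • T α.2)

/-- ABSEQ: equivariance of energy and of the representative. -/
def ST_ABSEQ : Prop := ∀ (H : Type u) [NormedAddCommGroup H] [InnerProductSpace ℂ H]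
  [CompleteSpace H] (A : AbsData H) (T : H ≃ₗᵢ[ℂ] H) (γ : G),
  (∀ f, T (A.J.c f) = A.J.c (T f)) → (∀ α, α ∈ A.E ↔ pull T γ α ∈ A.E) →
  pull T γ A.v - A.v ∈ A.E →
  ∀ g : G, En A (tau (g * γ)) = En A (tau g) ∧
    ∀ c c', IsRep A (tau g) c → IsRep A (tau (g * γ)) c' →
      (c', tau (g * γ) • c') = pull T γ (c, tau g • c)

/-! ## Plane analysis -/

/-- the coordinate `x + t y` -/
def tc (t z : ℂ) : ℂ := (z.re : ℂ) + t * (z.im : ℂ)

/-- partial derivatives of plane functions -/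
noncomputable def dx (a : ℂ → ℂ) (z : ℂ) : ℂ := fderiv ℝ a z 1
noncomputable def dy (a : ℂ → ℂ) (z : ℂ) : ℂ := fderiv ℝ a z Complex.I

/-- the unit disc and the disc of radius `1/2` -/
def B1 : Set ℂ := ball (0 : ℂ) 1
def Bh : Set ℂ := ball (0 : ℂ) (1 / 2)

/-- test functions on the unit disc -/
def PTest (a : ℂ → ℂ) : Prop :=
  ContDiff ℝ (⊤ : ℕ∞) a ∧ HasCompactSupport a ∧ tsupport a ⊆ B1

/-- `f dx + g dy` is weakly closed on the unit disc -/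
def WClosed (f g : ℂ → ℂ) : Prop :=
  ∀ a, PTest a → ∫ z in B1, (f z * dy a z - g z * dx a z) = 0

/-- WEYL: a weakly closed `L²` form of type (1,0) has a holomorphic coefficient. -/
def ST_WEYL : Prop := ∀ (t : ℂ) (c : ℂ → ℂ), t ∈ UH → MemLp c 2 (volume.restrict B1) →
  WClosed c (fun z => t * c z) →
  ∃ h : ℂ → ℂ, DifferentiableOn ℂ h (tc t '' B1) ∧ c =ᵐ[volume.restrict B1] fun z => h (tc t z)

/-- KER: holomorphic families of such forms have potentials holomorphic in the parameter. -/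
def ST_KER : Prop := ∀ c : ℂ → Lp ℂ 2 (volume.restrict B1), DifferentiableOn ℂ c UH →
  (∀ t ∈ UH, WClosed (c t) (fun z => t * c t z)) →
  ∃ U : ℂ → ℂ → ℂ,
    (∀ t ∈ UH, ∃ u : ℂ → ℂ, DifferentiableOn ℂ u (tc t '' B1) ∧ (∀ z ∈ B1, U t z = u (tc t z)) ∧
      (c t =ᵐ[volume.restrict B1] fun z => deriv u (tc t z))) ∧
    (∀ t ∈ UH, U t 0 = 0) ∧
    (∀ z ∈ Bh, DifferentiableOn ℂ (fun t => U t z) UH) ∧
    (∀ K ⊆ UH, IsCompact K → ∃ M, ∀ t ∈ K, ∀ z ∈ Bh, ∀ z' ∈ Bh, ‖U t z - U t z'‖ ≤ M * ‖z - z'‖)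

/-- REG: the tube estimate. -/
def ST_REG : Prop := ∀ (g : G) (u : ℂ → ℂ), DifferentiableOn ℂ u (tc (tau g) '' B1) →
  IntegrableOn (fun z => ‖deriv u (tc (tau g) z)‖ ^ 2) B1 →
  ∀ z ∈ Bh, ∀ z' ∈ Bh, ‖u (tc (tau g) z) - u (tc (tau g) z')‖ ≤
    2 * hs g * Real.sqrt ((tau g).im * ∫ z in B1, ‖deriv u (tc (tau g) z)‖ ^ 2)

/-- GRADB: interior gradient bound at the centre. -/
def ST_GRADB : Prop := ∀ t ∈ UH, ∃ C, ∀ u : ℂ → ℂ, DifferentiableOn ℂ u (tc t '' B1) →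
  IntegrableOn (fun z => ‖deriv u (tc t z)‖ ^ 2) B1 →
  ‖deriv u 0‖ ≤ C * Real.sqrt (∫ z in B1, ‖deriv u (tc t z)‖ ^ 2)

/-- POIN: Poincare inequality from the unit disc to the half disc. -/
def ST_POIN : Prop := ∃ C : ℝ, ∀ f : ℂ → ℂ, ContDiffOn ℝ 1 f B1 →
  IntegrableOn (fun z => ‖dx f z‖ ^ 2 + ‖dy f z‖ ^ 2) B1 →
  ∃ c : ℂ, IntegrableOn (fun z => ‖f z - c‖ ^ 2) Bh ∧
    ∫ z in Bh, ‖f z - c‖ ^ 2 ≤ C * ∫ z in B1, (‖dx f z‖ ^ 2 + ‖dy f z‖ ^ 2)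

/-- STOKES: integration by parts on the unit disc. -/
def ST_STOKES : Prop := ∀ u a : ℂ → ℂ, ContDiffOn ℝ 2 u B1 → PTest a →
  ∫ z in B1, (dx u z * dy a z - dy u z * dx a z) = 0

/-- CONE: the conformal coordinate of the structure `t` at a cone point of angle `k π`. -/
def ST_CONE : Prop := ∀ (k : ℕ) (t : ℂ), 1 ≤ k → t ∈ UH → ∃ Ψ : ℂ ≃ₜ ℂ, Ψ 0 = 0 ∧
  (∀ (s : ℝ) (w : ℂ), 0 < s → Ψ (s * w) = s * Ψ w) ∧
  (∀ w z : ℂ, z ^ 2 = w ^ k → (Ψ w) ^ k = (tc t z) ^ 2)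

/-- REMH: removable singularities for harmonic functions with gradient `o(1/|z|)`; the harmonic
functions are given locally as real parts of holomorphic functions. -/
def ST_REMH : Prop := ∀ (R : ℝ) (V : ℂ → ℝ), 0 < R →
  (∀ z ∈ ball (0 : ℂ) R, z ≠ 0 → ∃ (r : ℝ) (P : ℂ → ℂ), 0 < r ∧ DifferentiableOn ℂ P (ball z r) ∧
    (∀ w ∈ ball z r, V w = (P w).re)) →
  (∀ ε > 0, ∃ δ > 0, ∀ z ∈ ball (0 : ℂ) δ, z ≠ 0 → ‖z‖ * ‖fderiv ℝ V z‖ ≤ ε) →
  ∃ P : ℂ → ℂ, DifferentiableOn ℂ P (ball 0 R) ∧ ∀ z ∈ ball (0 : ℂ) R, z ≠ 0 → V z = (P z).re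

/-- MAXX: maximum principle on a space. -/
def ST_MAXX : Prop := ∀ (X : Type u) [TopologicalSpace X] [T2Space X] [ConnectedSpace X]
  (W : Set X) (f : X → ℝ), IsOpen W → IsCompact (closure W) → W.Nonempty → W ≠ univ →
  ContinuousOn f (closure W) → (∀ x ∈ W, IsLocalMax f x → ∀ᶠ y in 𝓝 x, f y = f x) →
  ∃ y ∈ frontier W, ∀ x ∈ closure W, f x ≤ f y

/-- CHAIN: local oscillation bounds give global ones on a compact connected space. -/
def ST_CHAIN : Prop := ∀ (X : Type u) [TopologicalSpace X] [CompactSpace X] [ConnectedSpace X]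
  (I : Type u) (f : I → X → ℝ) (w : I → ℝ), (∀ i, 0 ≤ w i) →
  (∀ x : X, ∃ N ∈ 𝓝 x, ∃ C : ℝ, ∀ i, ∀ y ∈ N, |f i y - f i x| ≤ C * w i) →
  ∃ C : ℝ, ∀ i x y, |f i x - f i y| ≤ C * w i

end Pool.Agent.Helper73.Dil
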