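import Pool.Agent.Helper73.Dil.Pure

open Topology Set Filter MeasureTheory Metric

namespace Pool.Agent.Helper73.Dil

universe u

/-- STEPA: an energy invariant under a lattice is constant. -/
def ST_STEPA : Prop := ∀ (H : Type u) [NormedAddCommGroup H] [InnerProductSpace ℂ H]
  [CompleteSpace H] (A : AbsData H) (Γ : Subgroup G), IsLattice Γ →
  (∀ γ ∈ Γ, ∀ g, En A (tau (g * γ)) = En A (tau g)) →
  ∃ E0 : ℝ, 0 < E0 ∧ ∀ t ∈ UH, En A t = E0

/-- circle mean value property for a function on `G` -/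
def CMV (F : G → ℝ) : Prop := Continuous F ∧ ∀ r g, 0 ≤ r →
  (1 / (2 * Real.pi)) * ∫ θ in (0 : ℝ)..(2 * Real.pi), F (dia r * rot θ * g) = F g

/-- JENSEN: the log-area argument. -/
def ST_JENSEN : Prop := ∀ (X : Type u) [TopologicalSpace X] [CompactSpace X] [MeasurableSpace X]
  [BorelSpace X] (P : Finset X) (A0 : Measure X) (Γ : Subgroup G) (f : G → X → ℝ) (C : ℝ),
  IsFiniteMeasure A0 → A0.IsOpenPosMeasure → P.Nonempty → IsLattice Γ →
  (∀ g, Continuous (f g)) →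
  (∀ x, ∀ p ∈ P, CMV fun g => f g x - f g p) →
  (∀ θ g x y, f (rot θ * g) x - f (rot θ * g) y = f g x - f g y) →
  (∀ g x y, |f g x - f g y| ≤ C * hs g) →
  (∀ γ ∈ Γ, ∃ (φ : X ≃ₜ X) (j : X → ℝ), (∀ x, φ x ∈ P ↔ x ∈ P) ∧ Continuous j ∧
    (∀ g x y, f (g * γ) x - f (g * γ) y = f g (φ x) + j x - (f g (φ y) + j y)) ∧
    (∀ F : X → ENNReal, Measurable F →
      ∫⁻ x, F (φ x) * ENNReal.ofReal (Real.exp (-2 * j x)) ∂A0 = ∫⁻ x, F x ∂A0)) →
  ∀ g g' x y, f g x - f g y = f g' x - f g' y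

/-- LIMH: pointwise limits of locally bounded sequences of harmonic functions. -/
def ST_LIMH : Prop := ∀ (h : ℕ → ℂ → ℂ) (V : ℂ → ℝ),
  (∀ n, DifferentiableOn ℂ (h n) UH) →
  (∀ K ⊆ UH, IsCompact K → ∃ M, ∀ n, ∀ t ∈ K, |(h n t).re| ≤ M) →
  (∀ t ∈ UH, Tendsto (fun n => (h n t).re) atTop (𝓝 (V t))) →
  ∃ h' : ℂ → ℂ, DifferentiableOn ℂ h' UH ∧ ∀ t ∈ UH, V t = (h' t).re

/-- FINC: a holomorphic family of (1,0) forms with constant real part vanishes. -/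
def ST_FINC : Prop := ∀ (H : Type u) [NormedAddCommGroup H] [InnerProductSpace ℂ H]
  [CompleteSpace H] (J : Conj H) (c : ℂ → H), DifferentiableOn ℂ c UH →
  (∀ t ∈ UH, ∀ t' ∈ UH, c t + J.c (c t) = c t' + J.c (c t') ∧
    t • c t + J.c (t • c t) = t' • c t' + J.c (t' • c t')) →
  ∀ t ∈ UH, c t = 0

end Pool.Agent.Helper73.Dil
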