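import Pool.Agent.Helper73.Dil.Basic

open Topology Set Filter MeasureTheory Metric

namespace Pool.Agent.Helper73.Dil

universe u

open DilationSurface

/-- RAT: the dilation factor between two charts. -/
def SB_RAT : Prop := ∀ (X : Type u) [TopologicalSpace X] (D : DilationSurface X)
  (e e' : OpenPartialHomeomorph X ℂ) (x : X), D.IsChart e → D.IsChart e' → x ∈ e.source →
  x ∈ e'.source →
  (rat e e' x ≠ 0 ∧ (∃ β : ℂ, ∀ᶠ y in 𝓝 x, e' y = rat e e' x * e y + β) ∧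
    (∀ (a : ℝ) (β : ℂ), (∀ᶠ y in 𝓝 x, e' y = a * e y + β) → a = rat e e' x) ∧
    (∀ᶠ y in 𝓝 x, rat e e' y = rat e e' x) ∧ DilAt e e' x |rat e e' x|)

/-- BALL: small flat balls centred at any regular point. -/
def SB_BALL : Prop := ∀ (X : Type u) [TopologicalSpace X] (D : DilationSurface X) (x : X),
  x ∉ D.cone → ∀ N ∈ 𝓝 x, ∃ b, D.IsBall b ∧ x ∈ b.source ∧ b x = 0 ∧ b.source ⊆ N

/-- CB: small cone balls. -/
def SB_CB : Prop := ∀ (X : Type u) [TopologicalSpace X] (D : DilationSurface X),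
  ∀ p ∈ D.cone, ∀ N ∈ 𝓝 p, ∃ k ψ, D.IsConeBall p k ψ ∧ ψ.source ⊆ N

/-- CBB: flat balls of comparable size inside a cone ball. -/
def SB_CBB : Prop := ∀ (X : Type u) [TopologicalSpace X] (D : DilationSurface X) (p : X) (k : ℕ)
  (ψ : OpenPartialHomeomorph X ℂ), D.IsConeBall p k ψ → ∀ x ∈ ψ.source, x ≠ p → ‖ψ x‖ < 1 / 4 →
  ∃ (b : OpenPartialHomeomorph X ℂ) (z0 : ℂ), D.IsBall b ∧ x ∈ b.source ∧ b x = 0 ∧
    z0 ^ 2 = ψ x ^ k ∧ b.source ⊆ ψ.source ∧
    ∀ y ∈ b.source, y ≠ p ∧ ((‖z0‖ / 2 : ℝ) * b y + z0) ^ 2 = ψ y ^ k ∧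
      ‖ψ x‖ / 4 ≤ ‖ψ y‖ ∧ ‖ψ y‖ ≤ 9 / 4 * ‖ψ x‖

/-- REF: countably many flat balls cover the regular part. -/
def SB_REF : Prop := ∀ (X : Type u) [TopologicalSpace X] [CompactSpace X] [T2Space X]
  (D : DilationSurface X), (∃ x, x ∉ D.cone) → Nonempty D.Ref

/-- CONN: the regular part is connected. -/
def SB_CONN : Prop := ∀ (X : Type u) [TopologicalSpace X] [CompactSpace X] [T2Space X]
  [ConnectedSpace X] (D : DilationSurface X), IsConnected (D.cone)ᶜ ∧ IsOpen (D.cone)ᶜ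

/-- MEAS: measure theory of the reference measure. -/
def SB_MEAS : Prop := ∀ (X : Type u) [TopologicalSpace X] [CompactSpace X] [T2Space X]
  [MeasurableSpace X] [BorelSpace X] (D : DilationSurface X) (R : D.Ref),
  R.mu D.cone = 0 ∧ SigmaFinite R.mu ∧ (∀ K, IsCompact K → K ⊆ (D.cone)ᶜ → R.mu K < ⊤) ∧
  (∀ U, IsOpen U → U.Nonempty → 0 < R.mu U) ∧ Measurable R.idx ∧
  (∀ b, D.IsBall b → Measurable (fun z : B1 => rat b (R.ch (b.symm z)) (b.symm z)) ∧
    ∀ F : X → ENNReal, Measurable F → ∫⁻ x in b.source, F x ∂(R.mu) =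
      ∫⁻ z in B1, F (b.symm z) * ENNReal.ofReal ((rat b (R.ch (b.symm z)) (b.symm z)) ^ 2))

/-- LOCL: the localisation operators. -/
def SB_LOCL : Prop := ∀ (X : Type u) [TopologicalSpace X] [CompactSpace X] [T2Space X]
  [MeasurableSpace X] [BorelSpace X] (D : DilationSurface X) (R : D.Ref),
  (∀ b, D.IsBall b → ∃ L : R.H →L[ℂ] Lp ℂ 2 (volume.restrict B1),
    (∀ c : R.H, L c =ᵐ[volume.restrict B1] R.loc b c) ∧
    (∀ c : R.H, ‖L c‖ ^ 2 = ∫ x in b.source, ‖c x‖ ^ 2 ∂(R.mu)) ∧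
    (∀ (c : R.H) (f : X → ℂ), c =ᵐ[R.mu] f → R.loc b c =ᵐ[volume.restrict B1] R.loc b f)) ∧
  (∀ f g : X → ℂ, (∀ b, D.IsBall b → R.loc b f =ᵐ[volume.restrict B1] R.loc b g) →
    f =ᵐ[R.mu] g)

/-- LOCG: localisation of gradients. -/
def SB_LOCG : Prop := ∀ (X : Type u) [TopologicalSpace X] (D : DilationSurface X) (R : D.Ref)
  (F : D.Twist) (b : OpenPartialHomeomorph X ℂ), D.IsBall b → ∀ z ∈ B1,
  R.loc b (R.gx F.F) z = dx (F.F b ∘ b.symm) z ∧ R.loc b (R.gy F.F) z = dy (F.F b ∘ b.symm) z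

/-- MEM: square integrability of gradients of test functions and of the base scale function. -/
def SB_MEM : Prop := ∀ (X : Type u) [TopologicalSpace X] [CompactSpace X] [T2Space X]
  [MeasurableSpace X] [BorelSpace X] (D : DilationSurface X) (R : D.Ref),
  (∀ ψ, D.IsTest ψ → MemLp (R.gx fun _ => ψ) 2 R.mu ∧ MemLp (R.gy fun _ => ψ) 2 R.mu) ∧
  (∀ S : D.Scale, MemLp (R.gx fun e x => (S.u e x : ℂ)) 2 R.mu ∧
    MemLp (R.gy fun e x => (S.u e x : ℂ)) 2 R.mu)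

/-- PU: partition of unity on compact subsets of the regular part. -/
def SB_PU : Prop := ∀ (X : Type u) [TopologicalSpace X] [CompactSpace X] [T2Space X]
  (D : DilationSurface X) (K : Set X), IsCompact K → K ⊆ (D.cone)ᶜ →
  ∃ (n : ℕ) (b : Fin n → OpenPartialHomeomorph X ℂ) (χ : Fin n → X → ℂ),
    (∀ i, D.IsBall (b i) ∧ D.IsTest (χ i) ∧ ∃ K', IsCompact K' ∧ K' ⊆ (b i).source ∧
      ∀ x, x ∉ K' → χ i x = 0) ∧
    ∃ U, IsOpen U ∧ K ⊆ U ∧ ∀ x ∈ U, ∑ i, χ i x = 1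

/-- SCALE: existence of a base scale function. -/
def SB_SCALE : Prop := ∀ (X : Type u) [TopologicalSpace X] [CompactSpace X] [T2Space X]
  (D : DilationSurface X), Nonempty D.Scale

/-- ISO: closed forms vanishing near the cone points are orthogonal to exact ones. -/
def SB_ISO : Prop := ∀ (X : Type u) [TopologicalSpace X] [CompactSpace X] [T2Space X]
  [MeasurableSpace X] [BorelSpace X] (D : DilationSurface X) (R : D.Ref) (F : D.Twist)
  (ψ : X → ℂ), (∀ p ∈ D.cone, ∀ᶠ y in 𝓝 p, y ∉ D.cone → R.gx F.F y = 0 ∧ R.gy F.F y = 0) →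
  D.IsTest ψ →
  ∫ x, (R.gx F.F x * R.gy (fun _ => ψ) x - R.gy F.F x * R.gx (fun _ => ψ) x) ∂(R.mu) = 0

/-- WCL: forms orthogonal to the exact ones are weakly closed in every flat ball. -/
def SB_WCL : Prop := ∀ (X : Type u) [TopologicalSpace X] [CompactSpace X] [T2Space X]
  [MeasurableSpace X] [BorelSpace X] (D : DilationSurface X) (R : D.Ref) (S : D.Scale)
  (A : AbsData R.H), R.IsAbs S A → ∀ α : R.H × R.H, (∀ ε ∈ A.E, Om A.J α ε = 0) →
  ∀ b, D.IsBall b → WClosed (R.loc b α.1) (R.loc b α.2)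

/-- ABS: assembling the abstract data. -/
def SB_ABS : Prop := ∀ (X : Type u) [TopologicalSpace X] [CompactSpace X] [T2Space X]
  [MeasurableSpace X] [BorelSpace X] (D : DilationSurface X) (R : D.Ref) (S : D.Scale),
  (∀ v : R.H × R.H, R.IsV S v → v ∉ R.E) → ∃ A : AbsData R.H, R.IsAbs S A

/-- POT: elements of the closure of the exact forms with local potentials have global ones. -/
def SB_POT : Prop := ∀ (X : Type u) [TopologicalSpace X] [CompactSpace X] [T2Space X]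
  [ConnectedSpace X] [MeasurableSpace X] [BorelSpace X] (D : DilationSurface X) (R : D.Ref)
  (α : R.H × R.H) (a : OpenPartialHomeomorph X ℂ → ℂ → ℂ), α ∈ R.E →
  (∀ b, D.IsBall b → ContDiffOn ℝ 1 (a b) B1 ∧
    (R.loc b α.1 =ᵐ[volume.restrict B1] dx (a b)) ∧
    (R.loc b α.2 =ᵐ[volume.restrict B1] dy (a b))) →
  ∃ κ : X → ℂ, ∀ b, D.IsBall b → ∃ k : ℂ, ∀ z ∈ B1, κ (b.symm z) = a b z + k

/-- VNOT: nontrivial holonomy. -/
def SB_VNOT : Prop := ∀ (X : Type u) [TopologicalSpace X] [CompactSpace X] [T2Space X]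
  [ConnectedSpace X] [MeasurableSpace X] [BorelSpace X] (D : DilationSurface X) (R : D.Ref)
  (S : D.Scale), D.HolonomyNontrivial → ∀ v : R.H × R.H, R.IsV S v → v ∉ R.E

/-- GLUE: a local solution is a solution. -/
def SB_GLUE : Prop := ∀ (X : Type u) [TopologicalSpace X] [CompactSpace X] [T2Space X]
  [MeasurableSpace X] [BorelSpace X] (D : DilationSurface X) (R : D.Ref) (S : D.Scale) (t : ℂ)
  (c : R.H) (f : X → ℝ), t ∈ UH →
  (∀ x, x ∉ D.cone → ∃ b, D.IsBall b ∧ x ∈ b.source ∧ R.SolOn S t c f b) → R.IsSol S t c f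

/-- SOL: existence of solutions. -/
def SB_SOL : Prop := ∀ (X : Type u) [TopologicalSpace X] [CompactSpace X] [T2Space X]
  [ConnectedSpace X] [MeasurableSpace X] [BorelSpace X] (D : DilationSurface X) (R : D.Ref)
  (S : D.Scale) (A : AbsData R.H) (t : ℂ) (c : R.H), R.IsAbs S A → t ∈ UH → IsRep A t c →
  ∃ f, R.IsSol S t c f

/-- SOLU: uniqueness of solutions, and the form is determined by the real function. -/
def SB_SOLU : Prop := ∀ (X : Type u) [TopologicalSpace X] [CompactSpace X] [T2Space X]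
  [ConnectedSpace X] [MeasurableSpace X] [BorelSpace X] (D : DilationSurface X) (R : D.Ref)
  (S : D.Scale) (A : AbsData R.H), R.IsAbs S A →
  (∀ (t : ℂ) (c : R.H) (f f' : X → ℝ), t ∈ UH → R.IsSol S t c f → R.IsSol S t c f' →
    ∃ k, ∀ x, x ∉ D.cone → f x - f' x = k) ∧
  (∀ (t t' : ℂ) (c c' : R.H) (f f' : X → ℝ) (k : ℝ), t ∈ UH → t' ∈ UH → R.IsSol S t c f →
    R.IsSol S t' c' f' → (∀ x, x ∉ D.cone → f x - f' x = k) →
    c + A.J.c c = c' + A.J.c c' ∧ t • c + A.J.c (t • c) = t' • c' + A.J.c (t' • c'))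

/-- HOL: holomorphic dependence. -/
def SB_HOL : Prop := ∀ (X : Type u) [TopologicalSpace X] [CompactSpace X] [T2Space X]
  [ConnectedSpace X] [MeasurableSpace X] [BorelSpace X] (D : DilationSurface X) (R : D.Ref)
  (S : D.Scale) (A : AbsData R.H) (c : ℂ → R.H) (f : ℂ → X → ℝ), R.IsAbs S A →
  DifferentiableOn ℂ c UH → (∀ t ∈ UH, IsRep A t (c t) ∧ R.IsSol S t (c t) (f t)) →
  ∀ x y, x ∉ D.cone → y ∉ D.cone → ∃ h : ℂ → ℂ, DifferentiableOn ℂ h UH ∧
    ∀ t ∈ UH, f t x - f t y = (h t).re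

/-- EXT: a solution extends continuously to the cone points, with the maximum principle. -/
def SB_EXT : Prop := ∀ (X : Type u) [TopologicalSpace X] [CompactSpace X] [T2Space X]
  [ConnectedSpace X] [MeasurableSpace X] [BorelSpace X] (D : DilationSurface X) (R : D.Ref)
  (S : D.Scale) (t : ℂ) (c : R.H) (f : X → ℝ), t ∈ UH → R.IsSol S t c f →
  ∃ f' : X → ℝ, Continuous f' ∧ (∀ x, x ∉ D.cone → f' x = f x) ∧
    ∀ p ∈ D.cone, ∀ k ψ, D.IsConeBall p k ψ →
      (∀ x ∈ ψ.source, x ≠ p → ∀ e, D.IsChart e → x ∈ e.source → ∀ (a : ℝ) (b : ℂ), a ≠ 0 →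
        (∀ᶠ y in 𝓝 x, (a * e y + b) ^ 2 = ψ y ^ k) → S.u e x = - Real.log |a|) →
      ∀ x ∈ ψ.source, (IsLocalMax f' x ∨ IsLocalMin f' x) → ∀ᶠ y in 𝓝 x, f' y = f' x

/-- GR: growth of solutions. -/
def SB_GR : Prop := ∀ (X : Type u) [TopologicalSpace X] [CompactSpace X] [T2Space X]
  [ConnectedSpace X] [MeasurableSpace X] [BorelSpace X] (D : DilationSurface X) (R : D.Ref)
  (S : D.Scale), ∃ C : ℝ, ∀ (g : G) (c : R.H) (f : X → ℝ), R.IsSol S (tau g) c f →
  Continuous f → ∀ x y, |f x - f y| ≤ C * (1 + hs g * Real.sqrt (tau g).im * ‖c‖)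

/-- AREA: the smooth area measure is finite and positive on open sets. -/
def SB_AREA : Prop := ∀ (X : Type u) [TopologicalSpace X] [CompactSpace X] [T2Space X]
  [MeasurableSpace X] [BorelSpace X] (D : DilationSurface X) (R : D.Ref)
  (S : D.Scale), IsFiniteMeasure (S.area R) ∧ (S.area R).IsOpenPosMeasure

/-- AFF: action of affine automorphisms. -/
def SB_AFF : Prop := ∀ (X : Type u) [TopologicalSpace X] [CompactSpace X] [T2Space X]
  [ConnectedSpace X] [MeasurableSpace X] [BorelSpace X] (D : DilationSurface X) (R : D.Ref)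
  (S : D.Scale) (A : AbsData R.H) (φ : X ≃ₜ X) (γ : G), R.IsAbs S A → D.IsAffineAut φ γ →
  ∃ (T : R.H ≃ₗᵢ[ℂ] R.H) (j : X → ℝ), Continuous j ∧ D.IsTest (fun x => (j x : ℂ)) ∧
    (∀ f, T (A.J.c f) = A.J.c (T f)) ∧ (∀ α, α ∈ A.E ↔ pull T γ α ∈ A.E) ∧
    pull T γ A.v - A.v ∈ A.E ∧
    (∀ F : X → ENNReal, Measurable F →
      ∫⁻ x, F (φ x) * ENNReal.ofReal (Real.exp (-2 * j x)) ∂(S.area R) =
        ∫⁻ x, F x ∂(S.area R)) ∧
    (∀ (g : G) (c c' : R.H) (f : X → ℝ), R.IsSol S (tau g) c f →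
      (c', tau (g * γ) • c') = pull T γ (c, tau g • c) →
      R.IsSol S (tau (g * γ)) c' (fun x => f (φ x) + j x))

/-- TORUS: without cone points the Veech group is not discrete. -/
def SB_TORUS : Prop := ∀ (X : Type u) [TopologicalSpace X] [CompactSpace X] [T2Space X]
  [ConnectedSpace X] [MeasurableSpace X] [BorelSpace X] (D : DilationSurface X) (R : D.Ref)
  (S : D.Scale) (c : R.H) (f : X → ℝ), D.cone = ∅ → R.IsSol S Complex.I c f → c ≠ 0 →
  ¬ DiscreteTopology D.VeechGroup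

/-- the theorem -/
def SB_MAIN : Prop := ∀ (X : Type u) [TopologicalSpace X] [CompactSpace X] [T2Space X]
  [ConnectedSpace X] (D : DilationSurface X), D.HolonomyNontrivial → ¬ IsLattice D.VeechGroup

end Pool.Agent.Helper73.Dil
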